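import Mathlib
import Pool.Agent.U919.GE.Mat

/-!
# Classes of groups with the closure properties of the Baum-Connes groups
-/

namespace Pool.Agent.U563.BC

open Pool.Agent.U919.GE (G2 up low dgl GE2)

/-- The closure properties of the class `C` of all groups whose countable subgroups satisfy the
conjecture of Baum and Connes with coefficients. (`sub`) `C` is closed under subgroups. (`solvable`)
It contains the groups with a solvable subgroup of finite index. (`linear`) It contains the groups `GL_2(K)` for all fields `K`.
(`tree`) It contains each group which acts on a tree by automorphisms, without inverting an edge,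
such that the stabilizers of the vertices are in `C`. (`ext`) It contains each group with a
homomorphism to a member such that the preimages of the finite subgroups are members. -/
structure BCClass (C : ∀ (G : Type) [Group G], Prop) : Prop where
  sub : ∀ (G H : Type) [Group G] [Group H] (f : G →* H), Function.Injective f → C H → C G
  solvable : ∀ (G : Type) [Group G] (N : Subgroup G), N.FiniteIndex → Group.IsSolvable N → C G
  linear : ∀ (K : Type) [Field K], C (G2 K)
  tree : ∀ (G V : Type) [Group G] [MulAction G V] (T : SimpleGraph V), T.IsTree →
    (∀ (g : G) (u v : V), T.Adj u v → T.Adj (g • u) (g • v)) →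
    (∀ (g : G) (u v : V), T.Adj u v → ¬ (g • u = v ∧ g • v = u)) →
    (∀ v : V, C (MulAction.stabilizer G v)) → C G
  ext : ∀ (G Q : Type) [Group G] [Group Q] (π : G →* Q), C Q →
    (∀ F : Subgroup Q, Finite F → C (F.comap π)) → C G

/-- `j` is an isomorphism of the ring `R` onto the ring of the elements of degree zero of the ring
`S` without zero divisors, for the degree function `d`. -/
structure Deg {R S : Type} [Ring R] [Ring S] (j : R →+* S) (d : S → ℕ) : Prop where
  nontrivial : (1 : S) ≠ 0
  inj : Function.Injective j
  mul_ne : ∀ a b : S, a ≠ 0 → b ≠ 0 → a * b ≠ 0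
  mul : ∀ a b : S, a ≠ 0 → b ≠ 0 → d (a * b) = d a + d b
  add : ∀ a b : S, d (a + b) ≤ max (d a) (d b)
  zero_iff : ∀ s : S, d s = 0 ↔ ∃ r : R, j r = s

end Pool.Agent.U563.BC
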