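import Mathlib
import Pool.Agent.U563.BC.Def

/-!
# Matrices over rings with a degree function (after `Pool.Agent.U919.GE`)
-/

namespace Pool.Agent.U563.BC

open Pool.Agent.U919.GE
open Pool.Agent.U919.GE.DegreeOver (lN lM le_lN lN_le le_lM lM_le mul_val Pair)

namespace Deg


variable {R S : Type} [Ring R] [Ring S] {j : R →+* S} {d : S → ℕ}

theorem d_j (h : Deg j d) (r : R) : d (j r) = 0 := (h.zero_iff _).2 ⟨r, rfl⟩

theorem d_zero (h : Deg j d) : d 0 = 0 := (h.zero_iff 0).2 ⟨0, map_zero j⟩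

theorem d_one (h : Deg j d) : d 1 = 0 := (h.zero_iff 1).2 ⟨1, map_one j⟩

theorem d_neg (h : Deg j d) (a : S) : d (-a) = d a := by
  by_cases ha : a = 0
  · rw [ha, neg_zero]
  · have h1 : d (-1 : S) = 0 := (h.zero_iff _).2 ⟨-1, by rw [map_neg, map_one]⟩
    have h2 := h.mul (-1) a (neg_ne_zero.2 h.nontrivial) ha
    rw [neg_one_mul, h1, zero_add] at h2
    exact h2

theorem d_add_lt (h : Deg j d) {a b : S} (hab : d a < d b) : d b ≤ d (a + b) := by
  have h1 := h.add (-a) (a + b)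
  rw [neg_add_cancel_left, h.d_neg] at h1
  rcases le_max_iff.1 h1 with h2 | h2
  · omega
  · exact h2

theorem d_mul_le (h : Deg j d) (a : S) {b : S} (hb : d b = 0) : d (a * b) ≤ d a := by
  by_cases ha : a = 0
  · rw [ha, zero_mul]
  · by_cases hb0 : b = 0
    · rw [hb0, mul_zero, h.d_zero]
      exact Nat.zero_le _
    · rw [h.mul a b ha hb0, hb, add_zero]

theorem eq_zero (h : Deg j d) {a b : S} (hab : a * b = 0) (hb : b ≠ 0) : a = 0 := by
  by_contra ha
  exact h.mul_ne a b ha hb hab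

/-- the inverse of a triangular matrix is triangular -/
theorem inv_tri (h : Deg j d) {g : G2 S} (hg : g.val 1 0 = 0) :
    g.inv 1 0 = 0 ∧ g.inv 0 0 * g.val 0 0 = 1 ∧ g.val 0 0 * g.inv 0 0 = 1 ∧
      g.val 1 1 * g.inv 1 1 = 1 ∧ g.inv 1 1 * g.val 1 1 = 1 := by
  have e1 : ∀ i k, (g.inv * g.val) i k = (1 : Matrix (Fin 2) (Fin 2) S) i k := fun i k => by
    rw [g.inv_val]
  have e2 : ∀ i k, (g.val * g.inv) i k = (1 : Matrix (Fin 2) (Fin 2) S) i k := fun i k => by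
    rw [g.val_inv]
  have a1 := e1 0 0
  have a2 := e1 1 0
  have a3 := e2 1 1
  have a4 := e1 1 1
  have a5 := e2 0 0
  rw [Matrix.mul_apply, Fin.sum_univ_two] at a1 a2 a3 a4 a5
  simp only [hg, mul_zero, zero_mul, add_zero, zero_add, Matrix.one_apply_eq] at a1 a2 a3 a4 a5
  have h0 : g.val 0 0 ≠ 0 := by
    intro h0
    rw [h0, mul_zero] at a1
    exact h.nontrivial a1.symm
  have a2' : g.inv 1 0 * g.val 0 0 = 0 := by simpa using a2
  have h1 : g.inv 1 0 = 0 := h.eq_zero a2' h0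
  rw [h1] at a4 a5
  simp only [zero_mul, mul_zero, zero_add, add_zero] at a4 a5
  exact ⟨h1, a1, a5, a3, a4⟩

theorem lN_mul_le (h : Deg j d) (g : G2 S) {a : G2 S} (ha : ∀ i k, d (a.val i k) = 0) :
    lN d (g * a) ≤ lN d g := by
  apply lN_le
  intro i k
  rw [mul_val]
  refine (h.add _ _).trans (max_le ?_ ?_)
  · exact (h.d_mul_le _ (ha _ _)).trans (le_lN g i 0)
  · exact (h.d_mul_le _ (ha _ _)).trans (le_lN g i 1)

theorem lvl (h : Deg j d) {A B : Subgroup (G2 S)} (hp : Pair d A B) :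
    Lvl A B (lN d) (lM d) := by
  have hcol : ∀ g : G2 S, g.val 0 0 = 0 → g.val 1 0 ≠ 0 := by
    intro g h0 h1
    have e1 : (g.inv * g.val) 0 0 = (1 : Matrix (Fin 2) (Fin 2) S) 0 0 := by rw [g.inv_val]
    rw [Matrix.mul_apply, Fin.sum_univ_two, h0, h1, mul_zero, mul_zero, add_zero,
      Matrix.one_apply_eq] at e1
    exact h.nontrivial e1.symm
  refine ⟨?_, ?_, ?_, ?_, ?_⟩
  · intro g a ha
    apply le_antisymm (h.lN_mul_le g (hp.hA a ha))
    have h1 := h.lN_mul_le (g * a) (hp.hA _ (inv_mem ha))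
    rwa [mul_inv_cancel_right] at h1
  · have key : ∀ g : G2 S, ∀ b ∈ B, lM d (g * b) ≤ lM d g := by
      intro g b hb
      apply lM_le
      intro i
      rw [mul_val, (hp.hB b hb).1, mul_zero, add_zero]
      exact (h.d_mul_le _ (hp.hB b hb).2.1).trans (le_lM g i)
    intro g b hb
    apply le_antisymm (key g b hb)
    have h1 := key (g * b) _ (inv_mem hb)
    rwa [mul_inv_cancel_right] at h1
  · intro g a ha h1 h2
    apply hp.hAB a ha
    by_contra h0
    obtain ⟨i, hi⟩ : ∃ i, d (g.val i 1) = lN d g := by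
      by_contra hcon
      push Not at hcon
      have h3 : lN d g ≤ lN d g - 1 := by
        apply lN_le
        intro i k
        have h4 : k = 0 ∨ k = 1 := by fin_cases k <;> simp
        rcases h4 with rfl | rfl
        · have := le_lM (d := d) g i
          omega
        · have h5 := le_lN (d := d) g i 1
          have h6 := hcon i
          omega
      omega
    have hgi : g.val i 1 ≠ 0 := by
      intro hz
      rw [hz, h.d_zero] at hi
      omega
    have h3 : d (g.val i 1 * a.val 1 0) = lN d g := by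
      rw [h.mul _ _ hgi h0, hp.hA a ha, add_zero, hi]
    have h4 : d (g.val i 0 * a.val 0 0) < d (g.val i 1 * a.val 1 0) := by
      rw [h3]
      exact lt_of_le_of_lt ((h.d_mul_le _ (hp.hA a ha 0 0)).trans (le_lM g i)) h1
    have h5 := h.d_add_lt h4
    have h6 := le_lM (d := d) (g * a) i
    rw [mul_val] at h6
    omega
  · intro g b hb h1 h2
    apply hp.hBA b hb
    by_contra h0
    obtain ⟨i, hi0, hi⟩ : ∃ i, g.val i 0 ≠ 0 ∧ d (g.val i 0) = lM d g := by
      by_cases h00 : g.val 0 0 = 0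
      · refine ⟨1, hcol g h00, ?_⟩
        unfold lM
        rw [h00, h.d_zero, Nat.zero_max]
      · by_cases h10 : g.val 1 0 = 0
        · refine ⟨0, h00, ?_⟩
          unfold lM
          rw [h10, h.d_zero, Nat.max_zero]
        · rcases le_total (d (g.val 0 0)) (d (g.val 1 0)) with hle | hle
          · exact ⟨1, h10, (max_eq_right hle).symm⟩
          · exact ⟨0, h00, (max_eq_left hle).symm⟩
    have hb0 : b.val 0 1 ≠ 0 := by
      intro hz
      rw [hz, h.d_zero] at h0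
      exact h0 rfl
    have h3 : d (g.val i 0 * b.val 0 1) = lM d g + d (b.val 0 1) := by
      rw [h.mul _ _ hi0 hb0, hi]
    have h4 : d (g.val i 1 * b.val 1 1) < d (g.val i 0 * b.val 0 1) := by
      rw [h3]
      have h5 := (h.d_mul_le (g.val i 1) (hp.hB b hb).2.2).trans (le_lN g i 1)
      omega
    have h5 := h.d_add_lt h4
    have h6 := le_lN (d := d) (g * b) i 1
    rw [mul_val, add_comm] at h6
    omega
  · intro a ha
    exact (lN_le fun i k => (hp.hA a ha i k).le).trans (Nat.zero_le _)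

end Deg

open Deg

variable {R S : Type} [Ring R] [Ring S] {j : R →+* S} {d : S → ℕ}

/-- triangular matrices with the diagonal of a triangular matrix in `A` -/
def Bsub (h : Deg j d) (A : Subgroup (G2 S)) : Subgroup (G2 S) where
  carrier := {g | g.val 1 0 = 0 ∧ ∃ a ∈ A, a.val 1 0 = 0 ∧ a.val 0 0 = g.val 0 0 ∧
    a.val 1 1 = g.val 1 1}
  one_mem' := ⟨by simp, 1, one_mem _, by simp, rfl, rfl⟩
  mul_mem' := by
    rintro g g' ⟨h1, a, ha, h2, h3, h4⟩ ⟨h1', a', ha', h2', h3', h4'⟩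
    refine ⟨?_, a * a', mul_mem ha ha', ?_, ?_, ?_⟩
    · rw [mul_val, h1, h1', zero_mul, mul_zero, add_zero]
    · rw [mul_val, h2, h2', zero_mul, mul_zero, add_zero]
    · rw [mul_val, mul_val, h2', h1', h3, h3', mul_zero, mul_zero]
    · rw [mul_val, mul_val, h2, h1, h4, h4', zero_mul, zero_mul]
  inv_mem' := by
    rintro g ⟨h1, a, ha, h2, h3, h4⟩
    obtain ⟨g1, g2, g3, g4, g5⟩ := h.inv_tri h1
    obtain ⟨a1, a2, a3, a4, a5⟩ := h.inv_tri h2
    refine ⟨g1, a⁻¹, inv_mem ha, a1, ?_, ?_⟩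
    · show a.inv 0 0 = g.inv 0 0
      calc a.inv 0 0 = (g.inv 0 0 * g.val 0 0) * a.inv 0 0 := by rw [g2, one_mul]
        _ = g.inv 0 0 * (a.val 0 0 * a.inv 0 0) := by rw [mul_assoc, h3]
        _ = g.inv 0 0 := by rw [a3, mul_one]
    · show a.inv 1 1 = g.inv 1 1
      calc a.inv 1 1 = a.inv 1 1 * (g.val 1 1 * g.inv 1 1) := by rw [g4, mul_one]
        _ = (a.inv 1 1 * a.val 1 1) * g.inv 1 1 := by rw [← mul_assoc, h4]
        _ = g.inv 1 1 := by rw [a5, one_mul]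

theorem mem_Bsub {h : Deg j d} {A : Subgroup (G2 S)} {g : G2 S} : g ∈ Bsub h A ↔
    g.val 1 0 = 0 ∧ ∃ a ∈ A, a.val 1 0 = 0 ∧ a.val 0 0 = g.val 0 0 ∧ a.val 1 1 = g.val 1 1 :=
  Iff.rfl

/-- decomposition of triangular matrices -/
theorem Bsub_dec {h : Deg j d} {A : Subgroup (G2 S)} {g : G2 S} (hg : g ∈ Bsub h A) :
    ∃ a ∈ A, a.val 1 0 = 0 ∧ a.val 0 0 = g.val 0 0 ∧ a.val 1 1 = g.val 1 1 ∧
      g = a * up (a.inv 0 0 * (g.val 0 1 - a.val 0 1)) := by
  obtain ⟨h1, a, ha, h2, h3, h4⟩ := mem_Bsub.1 hg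
  obtain ⟨a1, a2, a3, a4, a5⟩ := h.inv_tri h2
  refine ⟨a, ha, h2, h3, h4, ?_⟩
  apply Units.ext
  ext i k
  have key : a.val 0 0 * (a.inv 0 0 * (g.val 0 1 - a.val 0 1)) = g.val 0 1 - a.val 0 1 := by
    rw [← mul_assoc, a3, one_mul]
  change g.val i k = (a * up (a.inv 0 0 * (g.val 0 1 - a.val 0 1))).val i k
  rw [mul_val]
  fin_cases i <;> fin_cases k
  · simp [up, h3]
  · show g.val 0 1 = a.val 0 0 * (a.inv 0 0 * (g.val 0 1 - a.val 0 1)) + a.val 0 1 * 1
    rw [key, mul_one]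
    abel
  · simp [up, h1, h2]
  · simp [up, h4, h2]

theorem pair (h : Deg j d) (A₀ : Subgroup (G2 R)) (hU : ∀ r, up r ∈ A₀) :
    Pair d (A₀.map (mp j)) (Bsub h (A₀.map (mp j))) := by
  refine ⟨?_, ?_, ?_, ?_⟩
  · rintro _ ⟨a, _, rfl⟩ i k
    rw [mp_apply]
    exact h.d_j _
  · intro a ha h0
    exact mem_Bsub.2 ⟨h0, a, ha, h0, rfl, rfl⟩
  · intro b hb
    obtain ⟨h1, a, ⟨a0, _, rfl⟩, h2, h3, h4⟩ := mem_Bsub.1 hb
    refine ⟨h1, ?_, ?_⟩
    · rw [← h3, mp_apply]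
      exact h.d_j _
    · rw [← h4, mp_apply]
      exact h.d_j _
  · intro b hb h0
    obtain ⟨a, ⟨a0, ha0, rfl⟩, h2, h3, h4, h5⟩ := Bsub_dec hb
    rw [h5]
    refine mul_mem ⟨a0, ha0, rfl⟩ ?_
    obtain ⟨r, hr⟩ := (h.zero_iff _).1 h0
    have e1 : (mp j a0).inv 0 0 = j ((a0⁻¹).val 0 0) := by
      show (mp j a0)⁻¹.val 0 0 = _
      rw [← map_inv, mp_apply]
    rw [← hr, e1, mp_apply, ← map_sub, ← map_mul, ← mp_up]
    exact ⟨_, hU _, rfl⟩

theorem sup_eq (h : Deg j d) (A₀ : Subgroup (G2 R)) :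
    A₀.map (mp j) ⊔ Bsub h (A₀.map (mp j)) = A₀.map (mp j) ⊔ U2 S := by
  apply le_antisymm
  · refine sup_le le_sup_left ?_
    intro b hb
    obtain ⟨a, ha, h2, h3, h4, h5⟩ := Bsub_dec hb
    rw [h5]
    exact mul_mem (Subgroup.mem_sup_left ha) (Subgroup.mem_sup_right (U2_mem _))
  · refine sup_le le_sup_left ?_
    rw [U2, Subgroup.closure_le]
    rintro _ ⟨s, rfl⟩
    apply Subgroup.mem_sup_right
    exact mem_Bsub.2 ⟨rfl, 1, one_mem _, rfl, rfl, rfl⟩


end Pool.Agent.U563.BC
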