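import Mathlib
import Pool.Agent.U563.BC.A

/-!
# Groups generated by two subgroups with level functions, and degree rings
-/

namespace Pool.Agent.U563.BC

open Pool.Agent.U919.GE
open Pool.Agent.U919.GE.DegreeOver (lN lM le_lN lN_le le_lM lM_le mul_val Pair)

variable {C : ∀ (G : Type) [Group G], Prop}

theorem BCClass.of_map (hC : BCClass C) {G H : Type} [Group G] [Group H] {K : Subgroup G}
    {L : Subgroup H} (f : K →* H) (hf : Function.Injective f) (h : ∀ x, f x ∈ L) (hL : C L) :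
    C K :=
  hC.sub K L (f.codRestrict L h) (fun x y hxy => hf (congrArg (fun z : L => (z : H)) hxy)) hL

theorem BCClass.of_le (hC : BCClass C) {G : Type} [Group G] {K L : Subgroup G} (h : K ≤ L)
    (hL : C L) : C K :=
  hC.of_map K.subtype K.subtype_injective (fun x => h x.2) hL

theorem BCClass.tree_mem (hC : BCClass C) {Γ : Type} [Group Γ] {A B : Subgroup Γ} {N M : Γ → ℕ}
    (h : Lvl A B N M) (hA : C A) (hB : C B) : C ↥(A ⊔ B) := by
  refine hC.tree (GG A B) (Vt A B) (tr A B) (tr_tree h) tr_smul ?_ ?_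
  · rintro g u v ⟨x, ⟨rfl, rfl⟩ | ⟨rfl, rfl⟩⟩ ⟨h1, h2⟩
    · rw [smul_vA] at h1
      exact vA_ne_vB h1
    · rw [smul_vB] at h1
      exact vA_ne_vB h1.symm
  · intro v
    rcases cases_v v with ⟨g, rfl⟩ | ⟨g, rfl⟩
    · refine hC.of_map (H := Γ) (L := A)
        (((MulAut.conj (g : Γ)⁻¹).toMonoidHom.comp (A ⊔ B).subtype).comp (Subgroup.subtype _))
        ?_ ?_ hA
      · intro x y hxy
        exact Subtype.ext (Subtype.ext ((MulAut.conj (g : Γ)⁻¹).injective hxy))
      · intro x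
        have h1 : (x : GG A B) • vA A B g = vA A B g := x.2
        rw [smul_vA, eq_comm, vA_eq] at h1
        change (g : Γ)⁻¹ * ((x : GG A B) : Γ) * (g : Γ)⁻¹⁻¹ ∈ A
        rw [inv_inv, mul_assoc]
        exact h1
    · refine hC.of_map (H := Γ) (L := B)
        (((MulAut.conj (g : Γ)⁻¹).toMonoidHom.comp (A ⊔ B).subtype).comp (Subgroup.subtype _))
        ?_ ?_ hB
      · intro x y hxy
        exact Subtype.ext (Subtype.ext ((MulAut.conj (g : Γ)⁻¹).injective hxy))
      · intro x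
        have h1 : (x : GG A B) • vB A B g = vB A B g := x.2
        rw [smul_vB, eq_comm, vB_eq] at h1
        change (g : Γ)⁻¹ * ((x : GG A B) : Γ) * (g : Γ)⁻¹⁻¹ ∈ B
        rw [inv_inv, mul_assoc]
        exact h1

/-- Extensions of a member by a commutative group. -/
theorem BCClass.comm_ext (hC : BCClass C) {G Q : Type} [Group G] [Group Q] (π : G →* Q)
    (hk : ∀ x y : G, π x = 1 → π y = 1 → x * y = y * x) (hQ : C Q) : C G := by
  refine hC.ext G Q π hQ (fun F hF => ?_)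
  let f : F.comap π →* F := (π.comp (Subgroup.subtype _)).codRestrict F (fun x => x.2)
  refine hC.solvable _ f.ker inferInstance ?_
  have hcomm : ∀ x y : f.ker, x * y = y * x := by
    intro x y
    have h1 : ∀ z : f.ker, π ((z : F.comap π) : G) = 1 := fun z =>
      congrArg (fun w : F => (w : Q)) z.2
    exact Subtype.ext (Subtype.ext (hk _ _ (h1 x) (h1 y)))
  exact isSolvable_of_comm hcomm

variable {R S : Type} [Ring R] [Ring S] {j : R →+* S} {d : S → ℕ}

/-- The diagonal part of a triangular matrix. -/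
theorem dec2 (h : Deg j d) {A₀ : Subgroup (G2 R)} (hU : ∀ r, up r ∈ A₀) {g : G2 S}
    (hg : g ∈ Bsub h (A₀.map (mp j))) : ∃ a ∈ A₀.map (mp j), ∃ s : S, g = a * up s ∧
      a.val 0 1 = 0 ∧ a.val 1 0 = 0 ∧ a.val 0 0 = g.val 0 0 ∧ a.val 1 1 = g.val 1 1 := by
  obtain ⟨a, ⟨a0, ha0, rfl⟩, h2, h3, h4, h5⟩ := Bsub_dec hg
  obtain ⟨a1, a2, a3, a4, a5⟩ := h.inv_tri h2
  have e1 : (mp j a0).inv 0 0 = j ((a0⁻¹).val 0 0) := by
    show (mp j a0)⁻¹.val 0 0 = _
    rw [← map_inv, mp_apply]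
  have e2 : up (-((mp j a0).inv 0 0 * (mp j a0).val 0 1)) =
      mp j (up (-((a0⁻¹).val 0 0 * a0.val 0 1))) := by
    rw [mp_up, e1, mp_apply, map_neg, map_mul]
  refine ⟨mp j a0 * up (-((mp j a0).inv 0 0 * (mp j a0).val 0 1)), ?_,
    (mp j a0).inv 0 0 * g.val 0 1, ?_, ?_, ?_, ?_, ?_⟩
  · rw [e2]
    exact mul_mem ⟨a0, ha0, rfl⟩ ⟨_, hU _, rfl⟩
  · rw [mul_assoc, ← up_add]
    refine h5.trans ?_
    congr 2
    rw [mul_sub]
    abel
  · rw [mul_val]
    show (mp j a0).val 0 0 * -((mp j a0).inv 0 0 * (mp j a0).val 0 1) + (mp j a0).val 0 1 * 1 = 0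
    rw [mul_neg, ← mul_assoc, a3, one_mul, mul_one, neg_add_cancel]
  · rw [mul_val]
    show (mp j a0).val 1 0 * 1 + (mp j a0).val 1 1 * 0 = 0
    rw [h2, zero_mul, mul_zero, add_zero]
  · rw [mul_val]
    show (mp j a0).val 0 0 * 1 + (mp j a0).val 0 1 * 0 = _
    rw [mul_one, mul_zero, add_zero, h3]
  · rw [mul_val]
    show (mp j a0).val 1 0 * -((mp j a0).inv 0 0 * (mp j a0).val 0 1) + (mp j a0).val 1 1 * 1 = _
    rw [h2, zero_mul, zero_add, mul_one, h4]

end Pool.Agent.U563.BC
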