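import Mathlib
import Pool.Agent.U563.BC.B

/-!
# Groups of matrices over rings with a degree function
-/

namespace Pool.Agent.U563.BC

open Pool.Agent.U919.GE
open Pool.Agent.U919.GE.DegreeOver (lN lM le_lN lN_le le_lM lM_le mul_val Pair)

variable {C : ∀ (G : Type) [Group G], Prop}
variable {R S : Type} [Ring R] [Ring S] {j : R →+* S} {d : S → ℕ}

/-- the diagonal part -/
def dgU (h : Deg j d) (A : Subgroup (G2 S)) : Bsub h A →* G2 S where
  toFun g := dgl
    ⟨(g : G2 S).val 0 0, (g : G2 S).inv 0 0, (h.inv_tri g.2.1).2.2.1, (h.inv_tri g.2.1).2.1⟩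
    ⟨(g : G2 S).val 1 1, (g : G2 S).inv 1 1, (h.inv_tri g.2.1).2.2.2.1, (h.inv_tri g.2.1).2.2.2.2⟩
  map_one' := by
    apply Units.ext
    ext i k
    fin_cases i <;> fin_cases k <;> simp [dgl]
  map_mul' := by
    intro g g'
    apply Units.ext
    ext i k
    have e0 : ((g : G2 S) * (g' : G2 S)).val 0 0 = (g : G2 S).val 0 0 * (g' : G2 S).val 0 0 := by
      rw [mul_val, g'.2.1, mul_zero, add_zero]
    have e1 : ((g : G2 S) * (g' : G2 S)).val 1 1 = (g : G2 S).val 1 1 * (g' : G2 S).val 1 1 := by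
      rw [mul_val, g.2.1, zero_mul, zero_add]
    rw [mul_val]
    fin_cases i <;> fin_cases k
    · show ((g : G2 S) * (g' : G2 S)).val 0 0 = (g : G2 S).val 0 0 * (g' : G2 S).val 0 0 + 0 * 0
      rw [e0, mul_zero, add_zero]
    · show (0 : S) = (g : G2 S).val 0 0 * 0 + 0 * (g' : G2 S).val 1 1
      rw [mul_zero, zero_mul, add_zero]
    · show (0 : S) = 0 * (g' : G2 S).val 0 0 + (g : G2 S).val 1 1 * 0
      rw [mul_zero, zero_mul, add_zero]
    · show ((g : G2 S) * (g' : G2 S)).val 1 1 = 0 * 0 + (g : G2 S).val 1 1 * (g' : G2 S).val 1 1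
      rw [e1, mul_zero, zero_add]

theorem dgU_mem (h : Deg j d) {A₀ : Subgroup (G2 R)} (hU : ∀ r, up r ∈ A₀)
    (g : Bsub h (A₀.map (mp j))) : dgU h _ g ∈ A₀.map (mp j) := by
  obtain ⟨a, ha, s, -, h1, h2, h3, h4⟩ := dec2 h hU g.2
  have e : dgU h _ g = a := by
    apply Units.ext
    ext i k
    fin_cases i <;> fin_cases k
    · exact h3.symm
    · exact h1.symm
    · exact h2.symm
    · exact h4.symm
  rw [e]
  exact ha

theorem dgU_ker (h : Deg j d) {A : Subgroup (G2 S)} (g : Bsub h A) (hg : dgU h _ g = 1) :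
    (g : G2 S) = up ((g : G2 S).val 0 1) := by
  have h0 : (g : G2 S).val 0 0 = 1 := by
    have := congrArg (fun x : G2 S => x.val 0 0) hg
    simpa [dgU, dgl] using this
  have h1 : (g : G2 S).val 1 1 = 1 := by
    have := congrArg (fun x : G2 S => x.val 1 1) hg
    simpa [dgU, dgl] using this
  apply Units.ext
  ext i k
  fin_cases i <;> fin_cases k
  · exact h0
  · rfl
  · exact g.2.1
  · exact h1

theorem BCClass.map_mem (hC : BCClass C) (h : Deg j d) {A₀ : Subgroup (G2 R)} (hA : C A₀) :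
    C ↥(A₀.map (mp j)) := by
  have hinj : Function.Injective (mp j) := by
    intro a b hab
    apply Units.ext
    ext i k
    apply h.inj
    have := congrArg (fun x : G2 S => x.val i k) hab
    simpa [mp_apply] using this
  exact hC.sub _ _ (Subgroup.equivMapOfInjective A₀ (mp j) hinj).symm.toMonoidHom
    (Subgroup.equivMapOfInjective A₀ (mp j) hinj).symm.injective hA

/-- Degree rings. -/
theorem BCClass.deg (hC : BCClass C) (h : Deg j d) (A₀ : Subgroup (G2 R))
    (hU : ∀ r, up r ∈ A₀) (hA : C A₀) : C ↥(A₀.map (mp j) ⊔ U2 S) := by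
  have hA' := hC.map_mem h hA
  rw [← sup_eq h A₀]
  refine hC.tree_mem (h.lvl (pair h A₀ hU)) hA' ?_
  refine hC.comm_ext ((dgU h _).codRestrict (A₀.map (mp j)) (dgU_mem h hU)) ?_ hA'
  intro x y hx hy
  have hx' := dgU_ker h x (congrArg Subtype.val hx)
  have hy' := dgU_ker h y (congrArg Subtype.val hy)
  apply Subtype.ext
  rw [Subgroup.coe_mul, Subgroup.coe_mul, hx', hy', ← up_add, ← up_add, add_comm]

theorem E2_eq' (j : R →+* S) : (E2 R).map (mp j) ⊔ U2 S = E2 S := by
  apply le_antisymm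
  · refine sup_le (mp_E2 j) ?_
    rw [U2, Subgroup.closure_le]
    rintro _ ⟨s, rfl⟩
    exact up_mem_E2 s
  · rw [E2, Subgroup.closure_le]
    have hup : ∀ s : S, up s ∈ (E2 R).map (mp j) ⊔ U2 S := fun s =>
      Subgroup.mem_sup_right (U2_mem s)
    have hw : (wl : G2 S) ∈ (E2 R).map (mp j) ⊔ U2 S := by
      refine wl_mem _ (hup 1) (Subgroup.mem_sup_left ⟨low (-1), low_mem_E2 _, ?_⟩)
      rw [mp_low, map_neg, map_one]
    rintro _ (⟨s, rfl⟩ | ⟨s, rfl⟩)
    · exact hup s
    · rw [SetLike.mem_coe, low_eq]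
      exact mul_mem (mul_mem (inv_mem hw) (hup _)) hw

theorem GE2_eq (h : Deg j d) : (GE2 R).map (mp j) ⊔ U2 S = GE2 S := by
  apply le_antisymm
  · refine sup_le (mp_GE2 j) ?_
    rw [U2, Subgroup.closure_le]
    rintro _ ⟨s, rfl⟩
    exact E2_le_GE2 (up_mem_E2 s)
  · conv_lhs => rw [GE2]
    rw [Subgroup.closure_le]
    have hE : E2 S ≤ (GE2 R).map (mp j) ⊔ U2 S := by
      rw [← E2_eq' j]
      exact sup_le_sup_right (Subgroup.map_mono E2_le_GE2) _
    have hd : ∀ u : Sˣ, ∃ r : Rˣ, Units.map j.toMonoidHom r = u := by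
      intro u
      have hu : (u : S) ≠ 0 := by
        intro h0
        have := u.mul_inv
        rw [h0, zero_mul] at this
        exact h.nontrivial this.symm
      have hv : ((u⁻¹ : Sˣ) : S) ≠ 0 := by
        intro h0
        have := u.mul_inv
        rw [h0, mul_zero] at this
        exact h.nontrivial this.symm
      have h1 := h.mul _ _ hu hv
      rw [u.mul_inv, h.d_one] at h1
      obtain ⟨r, hr⟩ := (h.zero_iff (u : S)).1 (by omega)
      obtain ⟨r', hr'⟩ := (h.zero_iff ((u⁻¹ : Sˣ) : S)).1 (by omega)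
      refine ⟨⟨r, r', ?_, ?_⟩, ?_⟩
      · apply h.inj
        rw [map_mul, hr, hr', u.mul_inv, map_one]
      · apply h.inj
        rw [map_mul, hr, hr', u.inv_mul, map_one]
      · apply Units.ext
        exact hr
    rintro _ ((⟨s, rfl⟩ | ⟨s, rfl⟩) | ⟨⟨u, v⟩, rfl⟩)
    · exact hE (up_mem_E2 s)
    · exact hE (low_mem_E2 s)
    · obtain ⟨r, rfl⟩ := hd u
      obtain ⟨r', rfl⟩ := hd v
      apply Subgroup.mem_sup_left
      refine ⟨dgl r r', Subgroup.subset_closure (Or.inr ⟨(r, r'), rfl⟩), ?_⟩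
      rw [mp_dgl]


/-- `GE_2` of a ring with a degree function. -/
theorem BCClass.GE2_mem (hC : BCClass C) (h : Deg j d) (hA : C ↥(GE2 R)) : C ↥(GE2 S) := by
  have h1 := hC.deg h (GE2 R) (fun r => E2_le_GE2 (up_mem_E2 r)) hA
  rwa [GE2_eq h] at h1

end Pool.Agent.U563.BC
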