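import Mathlib
import Pool.Agent.U563.BC.Def

/-!
# Skew Laurent polynomial rings
-/

namespace Pool.Agent.U563.BC

/-- The ring `R` has no zero divisors, and each `a ≠ 0` has an order `lo a` and a degree `hi a`,
integers with the usual rules for sums and products and with `lo a ≤ hi a`. For each `a ≠ 0` there
is a unit `u` with order and degree `hi a` such that `a - u` is zero or has a smaller degree. The
elements whose order and degree are zero commute with each other. `t` is a unit with order and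
degree one. For instance skew Laurent polynomials `∑ a_i t^i` with coefficients in a commutative
field `K`, where `t a = σ(a) t` for an automorphism `σ` of `K`. -/
structure Laurent (R : Type) [Ring R] (lo hi : R → ℤ) (t : Rˣ) : Prop where
  nontrivial : (1 : R) ≠ 0
  mul_ne : ∀ a b : R, a ≠ 0 → b ≠ 0 → a * b ≠ 0
  lo_mul : ∀ a b : R, a ≠ 0 → b ≠ 0 → lo (a * b) = lo a + lo b
  hi_mul : ∀ a b : R, a ≠ 0 → b ≠ 0 → hi (a * b) = hi a + hi b
  lo_add : ∀ a b : R, a ≠ 0 → b ≠ 0 → a + b ≠ 0 → min (lo a) (lo b) ≤ lo (a + b)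
  hi_add : ∀ a b : R, a ≠ 0 → b ≠ 0 → a + b ≠ 0 → hi (a + b) ≤ max (hi a) (hi b)
  lo_le_hi : ∀ a : R, a ≠ 0 → lo a ≤ hi a
  lead : ∀ a : R, a ≠ 0 → ∃ u : Rˣ, lo (u : R) = hi a ∧ hi (u : R) = hi a ∧
    (a - u = 0 ∨ hi (a - u) < hi a)
  comm : ∀ a b : R, lo a = 0 → hi a = 0 → lo b = 0 → hi b = 0 → a * b = b * a
  lo_t : lo (t : R) = 1
  hi_t : hi (t : R) = 1

end Pool.Agent.U563.BC
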