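import Mathlib
import Pool.Agent.U563.BC.D
import Pool.Agent.U563.BC.LDef

/-!
# Euclid's algorithm for matrices over skew Laurent polynomial rings
-/

namespace Pool.Agent.U563.BC

open Pool.Agent.U919.GE
open Pool.Agent.U919.GE.DegreeOver (mul_val)

namespace Laurent

variable {R : Type} [Ring R] {lo hi : R → ℤ} {t : Rˣ}

theorem lo_one (h : Laurent R lo hi t) : lo 1 = 0 := by
  have h1 := h.lo_mul 1 1 h.nontrivial h.nontrivial
  rw [one_mul] at h1
  omega

theorem hi_one (h : Laurent R lo hi t) : hi 1 = 0 := by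
  have h1 := h.hi_mul 1 1 h.nontrivial h.nontrivial
  rw [one_mul] at h1
  omega

theorem lo_neg (h : Laurent R lo hi t) (a : R) : lo (-a) = lo a := by
  by_cases ha : a = 0
  · rw [ha, neg_zero]
  · have hn : (-1 : R) ≠ 0 := neg_ne_zero.2 h.nontrivial
    have h1 := h.lo_mul (-1) (-1) hn hn
    rw [neg_one_mul, neg_neg, h.lo_one] at h1
    have h2 := h.lo_mul (-1) a hn ha
    rw [neg_one_mul] at h2
    omega

theorem hi_neg (h : Laurent R lo hi t) (a : R) : hi (-a) = hi a := by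
  by_cases ha : a = 0
  · rw [ha, neg_zero]
  · have hn : (-1 : R) ≠ 0 := neg_ne_zero.2 h.nontrivial
    have h1 := h.hi_mul (-1) (-1) hn hn
    rw [neg_one_mul, neg_neg, h.hi_one] at h1
    have h2 := h.hi_mul (-1) a hn ha
    rw [neg_one_mul] at h2
    omega

theorem unit_ne (h : Laurent R lo hi t) (u : Rˣ) : (u : R) ≠ 0 := by
  intro h0
  have := u.mul_inv
  rw [h0, zero_mul] at this
  exact h.nontrivial this.symm

theorem lo_inv (h : Laurent R lo hi t) (u : Rˣ) : lo ((u⁻¹ : Rˣ) : R) = - lo (u : R) := by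
  have h1 := h.lo_mul _ _ (h.unit_ne u) (h.unit_ne u⁻¹)
  rw [u.mul_inv, h.lo_one] at h1
  omega

theorem hi_inv (h : Laurent R lo hi t) (u : Rˣ) : hi ((u⁻¹ : Rˣ) : R) = - hi (u : R) := by
  have h1 := h.hi_mul _ _ (h.unit_ne u) (h.unit_ne u⁻¹)
  rw [u.mul_inv, h.hi_one] at h1
  omega

/-- order at least `n` -/
def Ge (lo : R → ℤ) (n : ℤ) (x : R) : Prop := x = 0 ∨ n ≤ lo x

/-- degree less than `n` -/
def Lt (hi : R → ℤ) (n : ℤ) (x : R) : Prop := x = 0 ∨ hi x < n

theorem Ge.zero {n : ℤ} : Ge lo n 0 := Or.inl rfl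

theorem Ge.mono {m n : ℤ} (hmn : m ≤ n) {x : R} (hx : Ge lo n x) : Ge lo m x := by
  rcases hx with h1 | h1
  · exact Or.inl h1
  · exact Or.inr (hmn.trans h1)

theorem ge_add (h : Laurent R lo hi t) {n : ℤ} {x y : R} (hx : Ge lo n x) (hy : Ge lo n y) :
    Ge lo n (x + y) := by
  by_cases h0 : x + y = 0
  · exact Or.inl h0
  rcases hx with rfl | hx'
  · rwa [zero_add]
  rcases hy with rfl | hy'
  · rw [add_zero]
    exact Or.inr hx'
  by_cases hx0 : x = 0
  · rw [hx0, zero_add]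
    exact Or.inr hy'
  by_cases hy0 : y = 0
  · rw [hy0, add_zero]
    exact Or.inr hx'
  exact Or.inr ((le_min hx' hy').trans (h.lo_add x y hx0 hy0 h0))

theorem ge_neg (h : Laurent R lo hi t) {n : ℤ} {x : R} (hx : Ge lo n x) : Ge lo n (-x) := by
  rcases hx with rfl | hx'
  · exact Or.inl neg_zero
  · right
    rwa [h.lo_neg]

theorem ge_sub (h : Laurent R lo hi t) {n : ℤ} {x y : R} (hx : Ge lo n x) (hy : Ge lo n y) :
    Ge lo n (x - y) := by
  rw [sub_eq_add_neg]
  exact h.ge_add hx (h.ge_neg hy)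

theorem ge_mul (h : Laurent R lo hi t) {m n : ℤ} {x y : R} (hx : Ge lo m x) (hy : Ge lo n y) :
    Ge lo (m + n) (x * y) := by
  rcases hx with rfl | hx'
  · exact Or.inl (zero_mul _)
  rcases hy with rfl | hy'
  · exact Or.inl (mul_zero _)
  by_cases hx0 : x = 0
  · rw [hx0, zero_mul]
    exact Or.inl rfl
  by_cases hy0 : y = 0
  · rw [hy0, mul_zero]
    exact Or.inl rfl
  · right
    rw [h.lo_mul x y hx0 hy0]
    omega

theorem ge_one (h : Laurent R lo hi t) : Ge lo 0 (1 : R) := Or.inr h.lo_one.ge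

theorem not_ge_one (h : Laurent R lo hi t) : ¬ Ge lo 1 (1 : R) := by
  rintro (h1 | h1)
  · exact h.nontrivial h1
  · rw [h.lo_one] at h1
    omega

theorem ge_of_mul_left (h : Laurent R lo hi t) {m n : ℤ} {x y : R} (hx0 : x ≠ 0) (hx : lo x = m)
    (hxy : Ge lo (m + n) (x * y)) : Ge lo n y := by
  by_cases hy : y = 0
  · exact Or.inl hy
  rcases hxy with h1 | h1
  · exact absurd h1 (h.mul_ne x y hx0 hy)
  · right
    rw [h.lo_mul x y hx0 hy] at h1
    omega

theorem lt_add (h : Laurent R lo hi t) {n : ℤ} {x y : R} (hx : Lt hi n x) (hy : Lt hi n y) :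
    Lt hi n (x + y) := by
  by_cases h0 : x + y = 0
  · exact Or.inl h0
  rcases hx with rfl | hx'
  · rwa [zero_add]
  rcases hy with rfl | hy'
  · rw [add_zero]
    exact Or.inr hx'
  by_cases hx0 : x = 0
  · rw [hx0, zero_add]
    exact Or.inr hy'
  by_cases hy0 : y = 0
  · rw [hy0, add_zero]
    exact Or.inr hx'
  exact Or.inr ((h.hi_add x y hx0 hy0 h0).trans_lt (max_lt hx' hy'))

theorem lt_neg (h : Laurent R lo hi t) {n : ℤ} {x : R} (hx : Lt hi n x) : Lt hi n (-x) := by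
  rcases hx with rfl | hx'
  · exact Or.inl neg_zero
  · right
    rwa [h.hi_neg]

theorem lt_mul_unit (h : Laurent R lo hi t) {n : ℤ} {x : R} (hx : Lt hi n x) (u : Rˣ) :
    Lt hi (n + hi (u : R)) (x * u) := by
  by_cases hx0 : x = 0
  · rw [hx0, zero_mul]
    exact Or.inl rfl
  rcases hx with h1 | h1
  · exact absurd h1 hx0
  · right
    rw [h.hi_mul _ _ hx0 (h.unit_ne u)]
    omega

/-- division with remainder -/
theorem divi (h : Laurent R lo hi t) {c e : R} (hc : c ≠ 0) (he : e ≠ 0) (hle : hi c ≤ hi e) :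
    ∃ s : R, Ge lo 0 s ∧ Lt hi (hi e) (e + c * (-s)) := by
  obtain ⟨uc, a1, a2, a3⟩ := h.lead c hc
  obtain ⟨ue, b1, b2, b3⟩ := h.lead e he
  have hs : hi ((uc⁻¹ * ue : Rˣ) : R) = hi e - hi c := by
    rw [Units.val_mul, h.hi_mul _ _ (h.unit_ne _) (h.unit_ne _), h.hi_inv, a2, b2]
    omega
  refine ⟨((uc⁻¹ * ue : Rˣ) : R), Or.inr ?_, ?_⟩
  · rw [Units.val_mul, h.lo_mul _ _ (h.unit_ne _) (h.unit_ne _), h.lo_inv, a1, b1]
    omega
  · have e1 : e + c * (-((uc⁻¹ * ue : Rˣ) : R)) =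
        (e - ue) + -((c - uc) * ((uc⁻¹ * ue : Rˣ) : R)) := by
      have e2 : (uc : R) * ((uc⁻¹ * ue : Rˣ) : R) = ue := by
        rw [← Units.val_mul, mul_inv_cancel_left]
      rw [sub_mul, e2]
      noncomm_ring
    rw [e1]
    refine h.lt_add b3 (h.lt_neg ?_)
    have h1 := h.lt_mul_unit (n := hi c) a3 (uc⁻¹ * ue)
    rw [hs] at h1
    convert h1 using 1
    omega

/-- the ring of the elements of nonnegative order -/
def S (h : Laurent R lo hi t) : Subring R where
  carrier := {x | Ge lo 0 x}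
  one_mem' := h.ge_one
  mul_mem' := fun {a b} ha hb => by
    have := h.ge_mul (show Ge lo 0 a from ha) (show Ge lo 0 b from hb)
    rwa [add_zero] at this
  zero_mem' := Or.inl rfl
  add_mem' := fun {a b} ha hb => h.ge_add ha hb
  neg_mem' := fun {a} ha => h.ge_neg ha

/-- the group generated by the elementary and diagonal matrices over `S` -/
def EE (h : Laurent R lo hi t) : Subgroup (G2 R) := (GE2 h.S).map (mp h.S.subtype)

theorem up_EE (h : Laurent R lo hi t) {s : R} (hs : Ge lo 0 s) : up s ∈ h.EE :=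
  ⟨up (⟨s, hs⟩ : h.S), E2_le_GE2 (up_mem_E2 _), mp_up _ _⟩

theorem low_EE (h : Laurent R lo hi t) {s : R} (hs : Ge lo 0 s) : low s ∈ h.EE :=
  ⟨low (⟨s, hs⟩ : h.S), E2_le_GE2 (low_mem_E2 _), mp_low _ _⟩

theorem wl_EE (h : Laurent R lo hi t) : wl ∈ h.EE :=
  wl_mem _ (h.up_EE h.ge_one) (h.low_EE (h.ge_neg h.ge_one))

theorem dgl_EE (h : Laurent R lo hi t) {u v : Rˣ} (hu : lo (u : R) = 0) (hv : lo (v : R) = 0) :
    dgl u v ∈ h.EE := by
  let u' : h.Sˣ := ⟨⟨u, Or.inr hu.ge⟩, ⟨(u⁻¹ : Rˣ), Or.inr (by rw [h.lo_inv]; omega)⟩,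
    Subtype.ext u.mul_inv, Subtype.ext u.inv_mul⟩
  let v' : h.Sˣ := ⟨⟨v, Or.inr hv.ge⟩, ⟨(v⁻¹ : Rˣ), Or.inr (by rw [h.lo_inv]; omega)⟩,
    Subtype.ext v.mul_inv, Subtype.ext v.inv_mul⟩
  refine ⟨dgl u' v', Subgroup.subset_closure (Or.inr ⟨(u', v'), rfl⟩), ?_⟩
  apply Units.ext
  ext i k
  fin_cases i <;> fin_cases k <;> rfl

theorem low_v0 (g : G2 R) (s : R) (i : Fin 2) :
    (g * low s).val i 0 = g.val i 0 + g.val i 1 * s := by
  rw [mul_val]
  simp [low]

theorem low_v1 (g : G2 R) (s : R) (i : Fin 2) : (g * low s).val i 1 = g.val i 1 := by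
  rw [mul_val]
  simp [low]

theorem up_v0' (g : G2 R) (s : R) (i : Fin 2) : (g * up s).val i 0 = g.val i 0 := by
  rw [mul_val]
  simp [up]

theorem up_v1' (g : G2 R) (s : R) (i : Fin 2) :
    (g * up s).val i 1 = g.val i 0 * s + g.val i 1 := by
  rw [mul_val]
  simp [up]

theorem wl_v0' (g : G2 R) (i : Fin 2) : (g * wl).val i 0 = - g.val i 1 := by
  rw [mul_val, wl_val]
  simp

/-- **Euclid's algorithm** -/
theorem euclid (h : Laurent R lo hi t) (m : ℤ) (n : ℕ) : ∀ g : G2 R, Ge lo m (g.val 1 0) →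
    Ge lo m (g.val 1 1) → (g.val 1 0 ≠ 0 → g.val 1 1 ≠ 0 →
      (hi (g.val 1 0) - m) + (hi (g.val 1 1) - m) < n) → ∃ k ∈ h.EE, (g * k).val 1 0 = 0 := by
  induction n with
  | zero =>
    intro g h0 h1 h2
    by_cases hc : g.val 1 0 = 0
    · exact ⟨1, one_mem _, by rw [mul_one]; exact hc⟩
    by_cases he : g.val 1 1 = 0
    · exact ⟨wl, h.wl_EE, by rw [wl_v0', he, neg_zero]⟩
    exfalso
    have h3 := h2 hc he
    have h4 := h.lo_le_hi _ hc
    have h5 := h.lo_le_hi _ he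
    rcases h0 with h0 | h0
    · exact hc h0
    rcases h1 with h1 | h1
    · exact he h1
    push_cast at h3
    omega
  | succ n ih =>
    intro g h0 h1 h2
    by_cases hc : g.val 1 0 = 0
    · exact ⟨1, one_mem _, by rw [mul_one]; exact hc⟩
    by_cases he : g.val 1 1 = 0
    · exact ⟨wl, h.wl_EE, by rw [wl_v0', he, neg_zero]⟩
    have h3 := h2 hc he
    push_cast at h3
    rcases le_total (hi (g.val 1 0)) (hi (g.val 1 1)) with hle | hle
    · obtain ⟨s, hs, hlt⟩ := h.divi hc he hle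
      have e0 : (g * up (-s)).val 1 0 = g.val 1 0 := up_v0' _ _ _
      have e1 : (g * up (-s)).val 1 1 = g.val 1 1 + g.val 1 0 * (-s) := by
        rw [up_v1', add_comm]
      have hm : Ge lo m (g.val 1 0 * (-s)) := by
        have := h.ge_mul h0 (h.ge_neg hs)
        rwa [add_zero] at this
      obtain ⟨k, hk, hk0⟩ := ih (g * up (-s)) (by rw [e0]; exact h0)
        (by rw [e1]; exact h.ge_add h1 hm) (by
          intro _ hne
          rw [e1] at hne
          rw [e0, e1]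
          rcases hlt with h4 | h4
          · exact absurd h4 hne
          · omega)
      exact ⟨up (-s) * k, mul_mem (h.up_EE (h.ge_neg hs)) hk, by rw [← mul_assoc]; exact hk0⟩
    · obtain ⟨s, hs, hlt⟩ := h.divi he hc hle
      have e0 : (g * low (-s)).val 1 0 = g.val 1 0 + g.val 1 1 * (-s) := low_v0 _ _ _
      have e1 : (g * low (-s)).val 1 1 = g.val 1 1 := low_v1 _ _ _
      have hm : Ge lo m (g.val 1 1 * (-s)) := by
        have := h.ge_mul h1 (h.ge_neg hs)
        rwa [add_zero] at this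
      obtain ⟨k, hk, hk0⟩ := ih (g * low (-s)) (by rw [e0]; exact h.ge_add h0 hm)
        (by rw [e1]; exact h1) (by
          intro hne _
          rw [e0] at hne
          rw [e0, e1]
          rcases hlt with h4 | h4
          · exact absurd h4 hne
          · omega)
      exact ⟨low (-s) * k, mul_mem (h.low_EE (h.ge_neg hs)) hk, by rw [← mul_assoc]; exact hk0⟩

theorem iwasawa (h : Laurent R lo hi t) (g : G2 R) : ∃ k ∈ h.EE, (g * k).val 1 0 = 0 := by
  refine h.euclid (min (lo (g.val 1 0)) (lo (g.val 1 1)))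
    (((hi (g.val 1 0) - min (lo (g.val 1 0)) (lo (g.val 1 1))) +
      (hi (g.val 1 1) - min (lo (g.val 1 0)) (lo (g.val 1 1)))).toNat + 1) g
    (Or.inr (min_le_left _ _)) (Or.inr (min_le_right _ _)) (fun _ _ => ?_)
  push_cast
  have := Int.self_le_toNat ((hi (g.val 1 0) - min (lo (g.val 1 0)) (lo (g.val 1 1))) +
      (hi (g.val 1 1) - min (lo (g.val 1 0)) (lo (g.val 1 1))))
  omega

end Laurent

end Pool.Agent.U563.BC
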