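import Mathlib
import Pool.Agent.U563.BC.E

/-!
# The order of the determinant
-/

namespace Pool.Agent.U563.BC

open Pool.Agent.U919.GE
open Pool.Agent.U919.GE.DegreeOver (mul_val)

namespace Laurent

variable {R : Type} [Ring R] {lo hi : R → ℤ} {t : Rˣ}

/-- all entries have order at least `n` -/
def GeM (lo : R → ℤ) (n : ℤ) (g : G2 R) : Prop := ∀ i k, Ge lo n (g.val i k)

theorem GeM.mono {m n : ℤ} (hmn : m ≤ n) {g : G2 R} (hg : GeM lo n g) : GeM lo m g :=
  fun i k => (hg i k).mono hmn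

theorem geM_mul (h : Laurent R lo hi t) {m n : ℤ} {g g' : G2 R} (hg : GeM lo m g)
    (hg' : GeM lo n g') : GeM lo (m + n) (g * g') := fun i k => by
  rw [mul_val]
  exact h.ge_add (h.ge_mul (hg _ _) (hg' _ _)) (h.ge_mul (hg _ _) (hg' _ _))

theorem geM_one (h : Laurent R lo hi t) {n : ℤ} : GeM lo n (1 : G2 R) ↔ n ≤ 0 := by
  constructor
  · intro h1
    rcases h1 0 0 with h2 | h2
    · exact absurd h2 (by simpa using h.nontrivial)
    · have e : (1 : G2 R).val 0 0 = 1 := by simp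
      rwa [e, h.lo_one] at h2
  · intro hn i k
    fin_cases i <;> fin_cases k
    · exact (Or.inr (by simpa [h.lo_one] using hn))
    · exact Or.inl (by simp)
    · exact Or.inl (by simp)
    · exact (Or.inr (by simpa [h.lo_one] using hn))

theorem exists_vm (h : Laurent R lo hi t) (g : G2 R) : ∃ v : ℤ, ∀ n, GeM lo n g ↔ n ≤ v := by
  have hb : ∃ b : ℤ, ∀ z, GeM lo z g → z ≤ b := by
    by_contra hcon
    push Not at hcon
    obtain ⟨z, hz, hz1⟩ := hcon (- min (min (lo (g.inv 0 0)) (lo (g.inv 0 1)))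
      (min (lo (g.inv 1 0)) (lo (g.inv 1 1))))
    have h1 : GeM lo (min (min (lo (g.inv 0 0)) (lo (g.inv 0 1)))
        (min (lo (g.inv 1 0)) (lo (g.inv 1 1)))) g⁻¹ := by
      intro i k
      right
      change _ ≤ lo (g.inv i k)
      fin_cases i <;> fin_cases k
      · exact (min_le_left _ _).trans (min_le_left _ _)
      · exact (min_le_left _ _).trans (min_le_right _ _)
      · exact (min_le_right _ _).trans (min_le_left _ _)
      · exact (min_le_right _ _).trans (min_le_right _ _)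
    have h2 := h.geM_mul hz h1
    rw [mul_inv_cancel, h.geM_one] at h2
    omega
  have hi' : ∃ z : ℤ, GeM lo z g := by
    refine ⟨min (min (lo (g.val 0 0)) (lo (g.val 0 1))) (min (lo (g.val 1 0)) (lo (g.val 1 1))),
      ?_⟩
    intro i k
    right
    fin_cases i <;> fin_cases k
    · exact (min_le_left _ _).trans (min_le_left _ _)
    · exact (min_le_left _ _).trans (min_le_right _ _)
    · exact (min_le_right _ _).trans (min_le_left _ _)
    · exact (min_le_right _ _).trans (min_le_right _ _)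
  obtain ⟨v, hv, hv'⟩ := Int.exists_greatest_of_bdd hb hi'
  exact ⟨v, fun n => ⟨hv' n, fun hn => hv.mono hn⟩⟩

/-- the smallest order of an entry -/
noncomputable def vm (h : Laurent R lo hi t) (g : G2 R) : ℤ := (h.exists_vm g).choose

theorem le_vm (h : Laurent R lo hi t) {g : G2 R} {n : ℤ} : n ≤ h.vm g ↔ GeM lo n g :=
  ((h.exists_vm g).choose_spec n).symm

theorem vm_mul (h : Laurent R lo hi t) (g g' : G2 R) : h.vm g + h.vm g' ≤ h.vm (g * g') :=
  h.le_vm.2 (h.geM_mul (h.le_vm.1 le_rfl) (h.le_vm.1 le_rfl))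

theorem vm_one (h : Laurent R lo hi t) : h.vm 1 = 0 :=
  le_antisymm (h.geM_one.1 (h.le_vm.1 le_rfl)) (h.le_vm.2 (h.geM_one.2 le_rfl))

/-- matrices with entries of order at least zero, and the same for the inverse -/
def AA (h : Laurent R lo hi t) : Subgroup (G2 R) where
  carrier := {g | GeM lo 0 g ∧ GeM lo 0 g⁻¹}
  one_mem' := ⟨h.geM_one.2 le_rfl, by rw [inv_one]; exact h.geM_one.2 le_rfl⟩
  mul_mem' := fun {a b} ha hb => ⟨by simpa using h.geM_mul ha.1 hb.1,
    by rw [mul_inv_rev]; simpa using h.geM_mul hb.2 ha.2⟩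
  inv_mem' := fun {a} ha => ⟨ha.2, by rw [inv_inv]; exact ha.1⟩

theorem vm_mul_right (h : Laurent R lo hi t) (g : G2 R) {k : G2 R} (hk : k ∈ h.AA) :
    h.vm (g * k) = h.vm g := by
  have h1 := h.vm_mul g k
  have h2 := h.vm_mul (g * k) k⁻¹
  rw [mul_inv_cancel_right] at h2
  have h3 := h.le_vm.2 hk.1
  have h4 := h.le_vm.2 hk.2
  omega

theorem vm_mul_left (h : Laurent R lo hi t) (g : G2 R) {k : G2 R} (hk : k ∈ h.AA) :
    h.vm (k * g) = h.vm g := by
  have h1 := h.vm_mul k g
  have h2 := h.vm_mul k⁻¹ (k * g)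
  rw [inv_mul_cancel_left] at h2
  have h3 := h.le_vm.2 hk.1
  have h4 := h.le_vm.2 hk.2
  omega

theorem EE_le (h : Laurent R lo hi t) : h.EE ≤ h.AA := by
  rintro _ ⟨g, _, rfl⟩
  refine ⟨fun i k => ?_, fun i k => ?_⟩
  · rw [mp_apply]
    exact (g.val i k).2
  · rw [← map_inv, mp_apply]
    exact (g⁻¹.val i k).2

/-- the order of the determinant -/
noncomputable def chi (h : Laurent R lo hi t) (g : G2 R) : ℤ := h.vm g - h.vm g⁻¹

theorem chi_right (h : Laurent R lo hi t) (g : G2 R) {k : G2 R} (hk : k ∈ h.AA) :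
    h.chi (g * k) = h.chi g := by
  unfold chi
  rw [h.vm_mul_right g hk, mul_inv_rev, h.vm_mul_left g⁻¹ (inv_mem hk)]

theorem chi_left (h : Laurent R lo hi t) (g : G2 R) {k : G2 R} (hk : k ∈ h.AA) :
    h.chi (k * g) = h.chi g := by
  unfold chi
  rw [h.vm_mul_left g hk, mul_inv_rev, h.vm_mul_right g⁻¹ (inv_mem hk)]

/-- the inverse of a triangular matrix is triangular -/
theorem inv_tri (h : Laurent R lo hi t) {g : G2 R} (hg : g.val 1 0 = 0) :
    g.inv 1 0 = 0 ∧ g.inv 0 0 * g.val 0 0 = 1 ∧ g.val 0 0 * g.inv 0 0 = 1 ∧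
      g.val 1 1 * g.inv 1 1 = 1 ∧ g.inv 1 1 * g.val 1 1 = 1 ∧
      g.val 0 0 * g.inv 0 1 = - (g.val 0 1 * g.inv 1 1) := by
  have e1 : ∀ i k, (g.inv * g.val) i k = (1 : Matrix (Fin 2) (Fin 2) R) i k := fun i k => by
    rw [g.inv_val]
  have e2 : ∀ i k, (g.val * g.inv) i k = (1 : Matrix (Fin 2) (Fin 2) R) i k := fun i k => by
    rw [g.val_inv]
  have a1 := e1 0 0
  have a2 := e1 1 0
  have a3 := e2 1 1
  have a4 := e1 1 1
  have a5 := e2 0 0
  have a6 := e2 0 1
  rw [Matrix.mul_apply, Fin.sum_univ_two] at a1 a2 a3 a4 a5 a6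
  simp only [hg, mul_zero, zero_mul, add_zero, zero_add, Matrix.one_apply_eq] at a1 a2 a3 a4 a5
  have h0 : g.val 0 0 ≠ 0 := by
    intro h0
    rw [h0, mul_zero] at a1
    exact h.nontrivial a1.symm
  have a2' : g.inv 1 0 * g.val 0 0 = 0 := by simpa using a2
  have h1 : g.inv 1 0 = 0 := by
    by_contra hne
    exact h.mul_ne _ _ hne h0 a2'
  rw [h1] at a4 a5
  simp only [zero_mul, mul_zero, zero_add, add_zero] at a4 a5
  refine ⟨h1, a1, a5, a3, a4, ?_⟩
  have a6' : g.val 0 0 * g.inv 0 1 + g.val 0 1 * g.inv 1 1 = 0 := by simpa using a6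
  exact eq_neg_of_add_eq_zero_left a6'

theorem chi_tri (h : Laurent R lo hi t) {g : G2 R} (hg : g.val 1 0 = 0) :
    h.chi g = lo (g.val 0 0) + lo (g.val 1 1) := by
  obtain ⟨h1, h2, h3, h4, h5, h6⟩ := h.inv_tri hg
  have hx : g.val 0 0 ≠ 0 := fun h0 => h.nontrivial (by rw [← h3, h0, zero_mul])
  have hz : g.val 1 1 ≠ 0 := fun h0 => h.nontrivial (by rw [← h4, h0, zero_mul])
  have hx' : g.inv 0 0 ≠ 0 := fun h0 => h.nontrivial (by rw [← h3, h0, mul_zero])
  have hz' : g.inv 1 1 ≠ 0 := fun h0 => h.nontrivial (by rw [← h4, h0, mul_zero])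
  have lx : lo (g.val 0 0) + lo (g.inv 0 0) = 0 := by rw [← h.lo_mul _ _ hx hx', h3, h.lo_one]
  have lz : lo (g.val 1 1) + lo (g.inv 1 1) = 0 := by rw [← h.lo_mul _ _ hz hz', h4, h.lo_one]
  have key : ∀ n, GeM lo n g ↔ GeM lo (n - lo (g.val 0 0) - lo (g.val 1 1)) g⁻¹ := by
    intro n
    have hy : Ge lo n (g.val 0 1) ↔ Ge lo (n - lo (g.val 0 0) - lo (g.val 1 1)) (g.inv 0 1) := by
      by_cases hy0 : g.val 0 1 = 0
      · rw [hy0, zero_mul, neg_zero] at h6
        have h7 : g.inv 0 1 = 0 := by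
          by_contra hne
          exact h.mul_ne _ _ hx hne h6
        rw [hy0, h7]
        exact ⟨fun _ => Or.inl rfl, fun _ => Or.inl rfl⟩
      · have h8 : g.val 0 1 * g.inv 1 1 ≠ 0 := h.mul_ne _ _ hy0 hz'
        have h7 : g.inv 0 1 ≠ 0 := by
          intro h0
          rw [h0, mul_zero] at h6
          exact h8 (neg_eq_zero.1 h6.symm)
        have h9 : lo (g.val 0 0) + lo (g.inv 0 1) = lo (g.val 0 1) + lo (g.inv 1 1) := by
          rw [← h.lo_mul _ _ hx h7, h6, h.lo_neg, h.lo_mul _ _ hy0 hz']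
        constructor
        · rintro (h10 | h10)
          · exact absurd h10 hy0
          · right
            omega
        · rintro (h10 | h10)
          · exact absurd h10 h7
          · right
            omega
    constructor
    · intro hG i k
      fin_cases i <;> fin_cases k
      · rcases hG 1 1 with h10 | h10
        · exact absurd h10 hz
        · right
          change _ ≤ lo (g.inv 0 0)
          omega
      · exact hy.1 (hG 0 1)
      · exact Or.inl h1
      · rcases hG 0 0 with h10 | h10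
        · exact absurd h10 hx
        · right
          change _ ≤ lo (g.inv 1 1)
          omega
    · intro hG i k
      fin_cases i <;> fin_cases k
      · rcases hG 1 1 with h10 | h10
        · exact absurd h10 hz'
        · right
          change _ ≤ lo (g.inv 1 1) at h10
          change _ ≤ lo (g.val 0 0)
          omega
      · exact hy.2 (hG 0 1)
      · exact Or.inl hg
      · rcases hG 0 0 with h10 | h10
        · exact absurd h10 hx'
        · right
          change _ ≤ lo (g.inv 0 0) at h10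
          change _ ≤ lo (g.val 1 1)
          omega
  have h7 : h.vm g⁻¹ = h.vm g - lo (g.val 0 0) - lo (g.val 1 1) := by
    apply le_antisymm
    · have h8 : GeM lo (h.vm g⁻¹ + lo (g.val 0 0) + lo (g.val 1 1)) g := by
        rw [key]
        have e : h.vm g⁻¹ + lo (g.val 0 0) + lo (g.val 1 1) - lo (g.val 0 0) - lo (g.val 1 1) =
          h.vm g⁻¹ := by omega
        rw [e]
        exact h.le_vm.1 le_rfl
      have := h.le_vm.2 h8
      omega
    · exact h.le_vm.2 ((key _).1 (h.le_vm.1 le_rfl))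
  unfold chi
  omega

theorem chi_mul (h : Laurent R lo hi t) (g g' : G2 R) : h.chi (g * g') = h.chi g + h.chi g' := by
  obtain ⟨k, hk, hk0⟩ := h.iwasawa g
  obtain ⟨k', hk', hk0'⟩ := h.iwasawa (k⁻¹ * g')
  have hkA := h.EE_le hk
  have hkA' := h.EE_le hk'
  have e : g * g' * k' = (g * k) * (k⁻¹ * g' * k') := by group
  have e1 : h.chi (g * g') = h.chi (g * g' * k') := (h.chi_right _ hkA').symm
  have h00 : ((g * k) * (k⁻¹ * g' * k')).val 1 0 = 0 := by
    rw [mul_val, hk0, hk0', zero_mul, mul_zero, add_zero]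
  have f0 : ((g * k) * (k⁻¹ * g' * k')).val 0 0 =
      (g * k).val 0 0 * (k⁻¹ * g' * k').val 0 0 := by
    rw [mul_val, hk0', mul_zero, add_zero]
  have f1 : ((g * k) * (k⁻¹ * g' * k')).val 1 1 =
      (g * k).val 1 1 * (k⁻¹ * g' * k').val 1 1 := by
    rw [mul_val, hk0, zero_mul, zero_add]
  obtain ⟨-, -, a3, a4, -, -⟩ := h.inv_tri hk0
  obtain ⟨-, -, b3, b4, -, -⟩ := h.inv_tri hk0'
  have nz : ∀ {x y : R}, x * y = 1 → x ≠ 0 := fun {x y} hxy h0 =>
    h.nontrivial (by rw [← hxy, h0, zero_mul])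
  rw [e1, e, h.chi_tri h00, f0, f1, h.lo_mul _ _ (nz a3) (nz b3), h.lo_mul _ _ (nz a4) (nz b4)]
  have e2 := h.chi_tri hk0
  have e3 := h.chi_tri hk0'
  rw [h.chi_right _ hkA] at e2
  rw [h.chi_right _ hkA', h.chi_left _ (inv_mem hkA)] at e3
  omega

/-- the order of the determinant, a homomorphism -/
noncomputable def chiH (h : Laurent R lo hi t) : G2 R →* Multiplicative ℤ where
  toFun g := Multiplicative.ofAdd (h.chi g)
  map_one' := by
    have h1 := h.chi_mul 1 1
    rw [mul_one] at h1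
    have h2 : h.chi 1 = 0 := by omega
    rw [h2, ofAdd_zero]
  map_mul' g g' := by rw [h.chi_mul, ofAdd_add]

theorem mem_ker (h : Laurent R lo hi t) {g : G2 R} : g ∈ h.chiH.ker ↔ h.chi g = 0 := by
  rw [MonoidHom.mem_ker]
  exact ⟨fun h1 => Multiplicative.ofAdd.injective h1, fun h1 => congrArg Multiplicative.ofAdd h1⟩

end Laurent

end Pool.Agent.U563.BC
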