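import Mathlib
import Pool.Agent.U563.BC.F

/-!
# The tree of a skew Laurent polynomial ring
-/

namespace Pool.Agent.U563.BC

open Pool.Agent.U919.GE
open Pool.Agent.U919.GE.DegreeOver (mul_val)

namespace Laurent

variable {R : Type} [Ring R] {lo hi : R → ℤ} {t : Rˣ}

/-- a triangular matrix -/
theorem tri_dec (h : Laurent R lo hi t) {g : G2 R} (hg : g.val 1 0 = 0) :
    ∃ (u v : Rˣ) (s : R), (u : R) = g.val 0 0 ∧ (v : R) = g.val 1 1 ∧
      s = g.inv 0 0 * g.val 0 1 ∧ g = dgl u v * up s := by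
  obtain ⟨h1, h2, h3, h4, h5, h6⟩ := h.inv_tri hg
  refine ⟨⟨g.val 0 0, g.inv 0 0, h3, h2⟩, ⟨g.val 1 1, g.inv 1 1, h4, h5⟩, _, rfl, rfl, rfl, ?_⟩
  apply Units.ext
  ext i k
  rw [mul_val]
  fin_cases i <;> fin_cases k
  · show g.val 0 0 = g.val 0 0 * 1 + 0 * 0
    rw [mul_one, mul_zero, add_zero]
  · show g.val 0 1 = g.val 0 0 * (g.inv 0 0 * g.val 0 1) + 0 * 1
    rw [← mul_assoc, h3, one_mul, zero_mul, add_zero]
  · show g.val 1 0 = 0 * 1 + g.val 1 1 * 0
    rw [hg, mul_zero, zero_mul, add_zero]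
  · show g.val 1 1 = 0 * (g.inv 0 0 * g.val 0 1) + g.val 1 1 * 1
    rw [zero_mul, zero_add, mul_one]

theorem AA_le (h : Laurent R lo hi t) : h.AA ≤ h.EE := by
  intro g hg
  obtain ⟨k, hk, hk0⟩ := h.iwasawa g
  obtain ⟨u, v, s, hu, hv, hs, e⟩ := h.tri_dec hk0
  have hb : g * k ∈ h.AA := mul_mem hg (h.EE_le hk)
  obtain ⟨-, h2, h3, h4, h5, -⟩ := h.inv_tri hk0
  have key : ∀ {x y : R}, x * y = 1 → Ge lo 0 x → Ge lo 0 y → lo x = 0 := by
    intro x y hxy hx hy
    have hx0 : x ≠ 0 := fun h0 => h.nontrivial (by rw [← hxy, h0, zero_mul])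
    have hy0 : y ≠ 0 := fun h0 => h.nontrivial (by rw [← hxy, h0, mul_zero])
    have h7 := h.lo_mul x y hx0 hy0
    rw [hxy, h.lo_one] at h7
    rcases hx with hx | hx
    · exact absurd hx hx0
    rcases hy with hy | hy
    · exact absurd hy hy0
    omega
  have h6 : g * k ∈ h.EE := by
    rw [e]
    refine mul_mem (h.dgl_EE ?_ ?_) (h.up_EE ?_)
    · rw [hu]
      exact key h3 (hb.1 0 0) (hb.2 0 0)
    · rw [hv]
      exact key h4 (hb.1 1 1) (hb.2 1 1)
    · rw [hs]
      simpa using h.ge_mul (hb.2 0 0) (hb.1 0 1)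
  have := mul_mem h6 (inv_mem hk)
  rwa [mul_inv_cancel_right] at this

/-- the elements of order and degree zero -/
def S0 (h : Laurent R lo hi t) : Subring R where
  carrier := {x | x = 0 ∨ (lo x = 0 ∧ hi x = 0)}
  one_mem' := Or.inr ⟨h.lo_one, h.hi_one⟩
  mul_mem' := by
    rintro a b (rfl | ⟨a1, a2⟩) hb
    · exact Or.inl (zero_mul _)
    rcases hb with rfl | ⟨b1, b2⟩
    · exact Or.inl (mul_zero _)
    by_cases ha0 : a = 0
    · left
      rw [ha0, zero_mul]
    by_cases hb0 : b = 0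
    · left
      rw [hb0, mul_zero]
    right
    rw [h.lo_mul _ _ ha0 hb0, h.hi_mul _ _ ha0 hb0, a1, a2, b1, b2]
    exact ⟨rfl, rfl⟩
  zero_mem' := Or.inl rfl
  add_mem' := by
    rintro a b (rfl | ⟨a1, a2⟩) hb
    · rwa [zero_add]
    rcases hb with rfl | ⟨b1, b2⟩
    · rw [add_zero]
      exact Or.inr ⟨a1, a2⟩
    by_cases ha0 : a = 0
    · rw [ha0, zero_add]
      exact Or.inr ⟨b1, b2⟩
    by_cases hb0 : b = 0
    · rw [hb0, add_zero]
      exact Or.inr ⟨a1, a2⟩
    by_cases hab : a + b = 0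
    · exact Or.inl hab
    right
    have h1 := h.lo_add a b ha0 hb0 hab
    have h2 := h.hi_add a b ha0 hb0 hab
    have h3 := h.lo_le_hi _ hab
    rw [a1, b1, min_self] at h1
    rw [a2, b2, max_self] at h2
    omega
  neg_mem' := by
    rintro a (rfl | ⟨a1, a2⟩)
    · exact Or.inl neg_zero
    · right
      rw [h.lo_neg, h.hi_neg]
      exact ⟨a1, a2⟩

theorem S0_le (h : Laurent R lo hi t) : h.S0 ≤ h.S := by
  rintro x (hx | hx)
  · exact Or.inl hx
  · exact Or.inr hx.1.ge

theorem isField (h : Laurent R lo hi t) : IsField h.S0 where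
  exists_pair_ne := ⟨0, 1, fun h0 => h.nontrivial (congrArg Subtype.val h0).symm⟩
  mul_comm := by
    rintro ⟨a, ha⟩ ⟨b, hb⟩
    apply Subtype.ext
    change a * b = b * a
    rcases ha with rfl | ⟨a1, a2⟩
    · rw [zero_mul, mul_zero]
    rcases hb with rfl | ⟨b1, b2⟩
    · rw [zero_mul, mul_zero]
    exact h.comm a b a1 a2 b1 b2
  mul_inv_cancel := by
    rintro ⟨a, ha⟩ ha0
    have ha0' : a ≠ 0 := fun h0 => ha0 (Subtype.ext h0)
    rcases ha with ha | ⟨a1, a2⟩
    · exact absurd ha ha0'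
    obtain ⟨u, u1, u2, u3⟩ := h.lead a ha0'
    have h1 : a - u = 0 := by
      rcases u3 with u3 | u3
      · exact u3
      · by_contra hne
        have h2 : a + (-(u : R)) ≠ 0 := by rwa [← sub_eq_add_neg]
        have h3 := h.lo_add a (-(u : R)) ha0' (neg_ne_zero.2 (h.unit_ne u)) h2
        have h4 := h.lo_le_hi _ h2
        rw [← sub_eq_add_neg] at h3 h4
        rw [h.lo_neg, a1, u1, a2, min_self] at h3
        omega
    have h2 : a = u := sub_eq_zero.1 h1
    refine ⟨⟨((u⁻¹ : Rˣ) : R), Or.inr ⟨?_, ?_⟩⟩, ?_⟩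
    · rw [h.lo_inv, u1, a2, neg_zero]
    · rw [h.hi_inv, u2, a2, neg_zero]
    · apply Subtype.ext
      change a * ((u⁻¹ : Rˣ) : R) = 1
      rw [h2, u.mul_inv]

open Classical in
/-- the degree function -/
noncomputable def dd (h : Laurent R lo hi t) (s : h.S) : ℕ := if s = 0 then 0 else (hi s).toNat

theorem S_pos (h : Laurent R lo hi t) {s : h.S} (hs : s ≠ 0) : 0 ≤ hi (s : R) := by
  have h0 : (s : R) ≠ 0 := fun h0 => hs (Subtype.ext h0)
  rcases s.2 with h1 | h1
  · exact absurd h1 h0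
  · exact h1.trans (h.lo_le_hi _ h0)

theorem deg (h : Laurent R lo hi t) : Deg (Subring.inclusion h.S0_le) h.dd where
  nontrivial := fun h0 => h.nontrivial (congrArg Subtype.val h0)
  inj := Subring.inclusion_injective h.S0_le
  mul_ne := fun a b ha hb hab => by
    have ha' : (a : R) ≠ 0 := fun h0 => ha (Subtype.ext h0)
    have hb' : (b : R) ≠ 0 := fun h0 => hb (Subtype.ext h0)
    exact h.mul_ne _ _ ha' hb' (congrArg Subtype.val hab)
  mul := fun a b ha hb => by
    have ha' : (a : R) ≠ 0 := fun h0 => ha (Subtype.ext h0)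
    have hb' : (b : R) ≠ 0 := fun h0 => hb (Subtype.ext h0)
    have hab : a * b ≠ 0 := fun h0 => h.mul_ne _ _ ha' hb' (congrArg Subtype.val h0)
    unfold dd
    rw [if_neg ha, if_neg hb, if_neg hab]
    have h1 := h.hi_mul _ _ ha' hb'
    have h2 := h.S_pos ha
    have h3 := h.S_pos hb
    change (hi ((a : R) * (b : R))).toNat = _
    omega
  add := fun a b => by
    unfold dd
    by_cases ha : a = 0
    · rw [ha, zero_add, if_pos rfl]
      exact le_max_right _ _
    by_cases hb : b = 0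
    · rw [hb, add_zero, if_pos rfl]
      exact le_max_left _ _
    by_cases hab : a + b = 0
    · rw [if_pos hab]
      exact Nat.zero_le _
    have ha' : (a : R) ≠ 0 := fun h0 => ha (Subtype.ext h0)
    have hb' : (b : R) ≠ 0 := fun h0 => hb (Subtype.ext h0)
    have hab' : (a : R) + (b : R) ≠ 0 := fun h0 => hab (Subtype.ext h0)
    rw [if_neg ha, if_neg hb, if_neg hab]
    have h1 := h.hi_add _ _ ha' hb' hab'
    change (hi ((a : R) + (b : R))).toNat ≤ _
    omega
  zero_iff := fun s => by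
    unfold dd
    by_cases hs : s = 0
    · rw [if_pos hs]
      exact ⟨fun _ => ⟨0, by rw [hs, map_zero]⟩, fun _ => rfl⟩
    · rw [if_neg hs]
      have hs' : (s : R) ≠ 0 := fun h0 => hs (Subtype.ext h0)
      constructor
      · intro h1
        have h2 := h.S_pos hs
        have h3 : 0 ≤ lo (s : R) := by
          rcases s.2 with h4 | h4
          · exact absurd h4 hs'
          · exact h4
        have h4 := h.lo_le_hi _ hs'
        exact ⟨⟨s, Or.inr ⟨by omega, by omega⟩⟩, Subtype.ext rfl⟩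
      · rintro ⟨r, rfl⟩
        rcases r.2 with h1 | h1
        · exact absurd h1 hs'
        · change (hi (r : R)).toNat = 0
          rw [h1.2]
          rfl

variable {C : ∀ (G : Type) [Group G], Prop}

theorem C_AA (h : Laurent R lo hi t) (hC : BCClass C) : C h.AA := by
  have h1 : C (G2 h.S0) := by
    letI : Field h.S0 := h.isField.toField
    exact hC.linear h.S0
  have h2 : C ↥(GE2 h.S0) := hC.sub _ _ (GE2 h.S0).subtype (GE2 h.S0).subtype_injective h1
  have h3 : C ↥(GE2 h.S) := hC.GE2_mem h.deg h2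
  have hinj : Function.Injective (mp h.S.subtype) := by
    intro a b hab
    apply Units.ext
    ext i k
    have := congrArg (fun x : G2 R => x.val i k) hab
    simpa [mp_apply] using this
  have h4 : C ↥h.EE := hC.sub _ _ (Subgroup.equivMapOfInjective (GE2 h.S) _ hinj).symm.toMonoidHom
    (Subgroup.equivMapOfInjective (GE2 h.S) _ hinj).symm.injective h3
  exact hC.of_le h.AA_le h4

end Laurent

end Pool.Agent.U563.BC
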