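import Mathlib
import Pool.Agent.U563.BC.G

/-!
# The tree of a skew Laurent polynomial ring, continued
-/

namespace Pool.Agent.U563.BC

open Pool.Agent.U919.GE
open Pool.Agent.U919.GE.DegreeOver (mul_val)

namespace Laurent

variable {R : Type} [Ring R] {lo hi : R → ℤ} {t : Rˣ}

theorem ge_mul_t (h : Laurent R lo hi t) {n : ℤ} {x : R} :
    Ge lo n (x * t) ↔ Ge lo (n - 1) x := by
  constructor
  · intro hx
    have h1 := h.ge_mul hx (show Ge lo (-1) ((t⁻¹ : Rˣ) : R) from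
      Or.inr (by rw [h.lo_inv, h.lo_t]))
    rwa [mul_assoc, t.mul_inv, mul_one, ← sub_eq_add_neg] at h1
  · intro hx
    have h1 := h.ge_mul hx (show Ge lo 1 (t : R) from Or.inr h.lo_t.ge)
    rwa [sub_add_cancel] at h1

theorem ge_tinv_mul (h : Laurent R lo hi t) {n : ℤ} {x : R} :
    Ge lo n (((t⁻¹ : Rˣ) : R) * x) ↔ Ge lo (n + 1) x := by
  constructor
  · intro hx
    have h1 := h.ge_mul (show Ge lo 1 (t : R) from Or.inr h.lo_t.ge) hx
    rwa [← mul_assoc, t.mul_inv, one_mul, add_comm] at h1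
  · intro hx
    have h1 := h.ge_mul (show Ge lo (-1) ((t⁻¹ : Rˣ) : R) from
      Or.inr (by rw [h.lo_inv, h.lo_t])) hx
    rwa [neg_add_cancel_comm_assoc] at h1

/-- the matrix `(1 0; 0 t)` -/
def del (t : Rˣ) : G2 R := dgl 1 t

theorem mul_del (g : G2 R) (i : Fin 2) : (g * del t).val i 0 = g.val i 0 ∧
    (g * del t).val i 1 = g.val i 1 * t := by
  constructor
  · rw [mul_val]
    simp [del, dgl]
  · rw [mul_val]
    simp [del, dgl]

theorem conj_del (g : G2 R) : ((del t)⁻¹ * g * del t).val 0 0 = g.val 0 0 ∧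
    ((del t)⁻¹ * g * del t).val 0 1 = g.val 0 1 * t ∧
    ((del t)⁻¹ * g * del t).val 1 0 = ((t⁻¹ : Rˣ) : R) * g.val 1 0 ∧
    ((del t)⁻¹ * g * del t).val 1 1 = ((t⁻¹ : Rˣ) : R) * (g.val 1 1 * t) := by
  have e : ∀ i k, (del t)⁻¹.val i k = (dgl 1 t⁻¹ : G2 R).val i k := by
    intro i k
    fin_cases i <;> fin_cases k <;> rfl
  refine ⟨?_, ?_, ?_, ?_⟩
  · rw [(mul_del _ _).1, mul_val, e, e]
    simp [dgl]
  · rw [(mul_del _ _).2, mul_val, e, e]
    simp [dgl]
  · rw [(mul_del _ _).1, mul_val, e, e]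
    simp [dgl]
  · rw [(mul_del _ _).2, mul_val, e, e]
    simp [dgl, mul_assoc]

/-- the conjugate of `AA` -/
def BB (h : Laurent R lo hi t) : Subgroup (G2 R) where
  carrier := {b | (del t)⁻¹ * b * del t ∈ h.AA}
  one_mem' := by
    change (del t)⁻¹ * 1 * del t ∈ h.AA
    rw [mul_one, inv_mul_cancel]
    exact one_mem _
  mul_mem' := fun {a b} ha hb => by
    change (del t)⁻¹ * (a * b) * del t ∈ h.AA
    have e : (del t)⁻¹ * (a * b) * del t = ((del t)⁻¹ * a * del t) * ((del t)⁻¹ * b * del t) := by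
      group
    rw [e]
    exact mul_mem ha hb
  inv_mem' := fun {a} ha => by
    change (del t)⁻¹ * a⁻¹ * del t ∈ h.AA
    have e : (del t)⁻¹ * a⁻¹ * del t = ((del t)⁻¹ * a * del t)⁻¹ := by group
    rw [e]
    exact inv_mem ha

/-- the conditions for the entries -/
def BE (lo : R → ℤ) (b : G2 R) : Prop := Ge lo 0 (b.val 0 0) ∧ Ge lo (-1) (b.val 0 1) ∧
  Ge lo 1 (b.val 1 0) ∧ Ge lo 0 (b.val 1 1)

theorem geM_conj (h : Laurent R lo hi t) (b : G2 R) :
    GeM lo 0 ((del t)⁻¹ * b * del t) ↔ BE lo b := by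
  obtain ⟨e1, e2, e3, e4⟩ := conj_del (t := t) b
  constructor
  · intro hG
    refine ⟨?_, ?_, ?_, ?_⟩
    · have := hG 0 0
      rwa [e1] at this
    · have := hG 0 1
      rw [e2, h.ge_mul_t] at this
      exact this
    · have := hG 1 0
      rw [e3, h.ge_tinv_mul] at this
      exact this
    · have := hG 1 1
      rw [e4, h.ge_tinv_mul, h.ge_mul_t] at this
      exact this
  · rintro ⟨h1, h2, h3, h4⟩ i k
    fin_cases i <;> fin_cases k
    · show Ge lo 0 (((del t)⁻¹ * b * del t).val 0 0)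
      rwa [e1]
    · show Ge lo 0 (((del t)⁻¹ * b * del t).val 0 1)
      rw [e2, h.ge_mul_t]
      exact h2
    · show Ge lo 0 (((del t)⁻¹ * b * del t).val 1 0)
      rw [e3, h.ge_tinv_mul]
      exact h3
    · show Ge lo 0 (((del t)⁻¹ * b * del t).val 1 1)
      rw [e4, h.ge_tinv_mul, h.ge_mul_t]
      exact h4

theorem mem_BB (h : Laurent R lo hi t) {b : G2 R} : b ∈ h.BB ↔ BE lo b ∧ BE lo b⁻¹ := by
  change (GeM lo 0 ((del t)⁻¹ * b * del t) ∧ GeM lo 0 ((del t)⁻¹ * b * del t)⁻¹) ↔ _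
  have e : ((del t)⁻¹ * b * del t)⁻¹ = (del t)⁻¹ * b⁻¹ * del t := by group
  rw [e, h.geM_conj, h.geM_conj]

theorem lo_of_not (_h : Laurent R lo hi t) {n : ℤ} {x : R} (h1 : Ge lo n x)
    (h2 : ¬ Ge lo (n + 1) x) : x ≠ 0 ∧ lo x = n := by
  have h0 : x ≠ 0 := fun h0 => h2 (Or.inl h0)
  refine ⟨h0, ?_⟩
  rcases h1 with h1 | h1
  · exact absurd h1 h0
  · by_contra hne
    exact h2 (Or.inr (by omega))

theorem val_inv_entry (g : G2 R) (i k : Fin 2) : g.val i 0 * g⁻¹.val 0 k + g.val i 1 * g⁻¹.val 1 k =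
    (1 : Matrix (Fin 2) (Fin 2) R) i k := by
  have := mul_val g g⁻¹ i k
  rw [mul_inv_cancel] at this
  rw [← this]
  rfl

theorem low_inv (h : Laurent R lo hi t) {a : G2 R} (ha : GeM lo 0 a) (ha' : GeM lo 0 a⁻¹)
    (h1 : Ge lo 1 (a.val 1 0)) : Ge lo 1 (a⁻¹.val 1 0) := by
  have e1 := val_inv_entry a 1 1
  have e2 := val_inv_entry a 1 0
  rw [Matrix.one_apply_eq] at e1
  rw [Matrix.one_apply_ne (by decide)] at e2
  have h2 : ¬ Ge lo (0 + 1) (a.val 1 1) := by
    intro h3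
    rw [zero_add] at h3
    apply h.not_ge_one
    rw [← e1]
    refine h.ge_add ?_ ?_
    · simpa using h.ge_mul h1 (ha' 0 1)
    · simpa using h.ge_mul h3 (ha' 1 1)
  obtain ⟨h3, h4⟩ := h.lo_of_not (ha 1 1) h2
  apply h.ge_of_mul_left h3 h4
  rw [eq_neg_of_add_eq_zero_right e2]
  have := h.ge_neg (h.ge_mul h1 (ha' 0 0))
  simpa using this

theorem up_inv' (h : Laurent R lo hi t) {b : G2 R} (hb : BE lo b) (hb' : BE lo b⁻¹)
    (h1 : Ge lo 0 (b.val 0 1)) : Ge lo 0 (b⁻¹.val 0 1) := by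
  have e1 := val_inv_entry b 0 0
  have e2 := val_inv_entry b 0 1
  rw [Matrix.one_apply_eq] at e1
  rw [Matrix.one_apply_ne (by decide)] at e2
  have h2 : ¬ Ge lo (0 + 1) (b.val 0 0) := by
    intro h3
    rw [zero_add] at h3
    apply h.not_ge_one
    rw [← e1]
    refine h.ge_add ?_ ?_
    · simpa using h.ge_mul h3 hb'.1
    · simpa using h.ge_mul h1 hb'.2.2.1
  obtain ⟨h3, h4⟩ := h.lo_of_not hb.1 h2
  apply h.ge_of_mul_left h3 h4
  rw [eq_neg_of_add_eq_zero_left e2]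
  have := h.ge_neg (h.ge_mul h1 hb'.2.2.2)
  simpa using this

theorem chi_del (h : Laurent R lo hi t) : h.chi (del t) = 1 := by
  have h1 : (del t).val 1 0 = (0 : R) := rfl
  rw [h.chi_tri h1]
  have h2 : (del t).val 0 0 = (1 : R) := rfl
  have h3 : (del t).val 1 1 = (t : R) := rfl
  rw [h2, h3, h.lo_one, h.lo_t, zero_add]

theorem vm_le (h : Laurent R lo hi t) (g : G2 R) : 2 * h.vm g ≤ h.chi g := by
  have h1 := h.vm_mul g g⁻¹
  rw [mul_inv_cancel, h.vm_one] at h1
  unfold chi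
  omega

/-- the kernel -/
abbrev Ker (h : Laurent R lo hi t) : Type := ↥h.chiH.ker

theorem lvl (h : Laurent R lo hi t) : Lvl (h.AA.subgroupOf h.chiH.ker) (h.BB.subgroupOf h.chiH.ker)
    (fun g : h.Ker => (- h.vm (g : G2 R)).toNat)
    (fun g : h.Ker => (- h.vm ((g : G2 R) * del t)).toNat) where
  hN := by
    intro g a ha
    rw [Subgroup.mem_subgroupOf] at ha
    simp only [Subgroup.coe_mul]
    rw [h.vm_mul_right _ ha]
  hM := by
    intro g b hb
    rw [Subgroup.mem_subgroupOf] at hb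
    have hb' : (del t)⁻¹ * (b : G2 R) * del t ∈ h.AA := hb
    have e : (g : G2 R) * b * del t = (g : G2 R) * del t * ((del t)⁻¹ * (b : G2 R) * del t) := by
      group
    simp only [Subgroup.coe_mul]
    rw [e, h.vm_mul_right _ hb']
  uA := by
    intro g a ha h1 h2
    rw [Subgroup.mem_subgroupOf] at ha ⊢
    simp only [Subgroup.coe_mul] at h1 h2
    have h3 : h.vm (g : G2 R) + 1 ≤ h.vm ((g : G2 R) * del t) := by omega
    have h4 : h.vm (g : G2 R) + 1 ≤ h.vm ((g : G2 R) * (a : G2 R) * del t) := by omega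
    rw [h.le_vm] at h3 h4
    obtain ⟨i, hi1⟩ : ∃ i, ¬ Ge lo (h.vm (g : G2 R) + 1) ((g : G2 R).val i 1) := by
      by_contra hcon
      push Not at hcon
      have h5 : GeM lo (h.vm (g : G2 R) + 1) (g : G2 R) := by
        intro i k
        have h6 : k = 0 ∨ k = 1 := by fin_cases k <;> simp
        rcases h6 with rfl | rfl
        · have := h3 i 0
          rwa [(mul_del _ _).1] at this
        · exact hcon i
      have := h.le_vm.2 h5
      omega
    obtain ⟨h6, h7⟩ := h.lo_of_not ((h.le_vm.1 le_rfl) i 1) hi1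
    have h8 := h4 i 0
    have h9 := h3 i 0
    rw [(mul_del _ _).1] at h8 h9
    rw [mul_val] at h8
    have h10 : Ge lo (h.vm (g : G2 R) + 1) ((g : G2 R).val i 1 * (a : G2 R).val 1 0) := by
      have h11 : Ge lo (h.vm (g : G2 R) + 1) ((g : G2 R).val i 0 * (a : G2 R).val 0 0) := by
        simpa using h.ge_mul h9 (ha.1 0 0)
      have h12 := h.ge_sub h8 h11
      rwa [add_sub_cancel_left] at h12
    have h13 := h.ge_of_mul_left h6 h7 h10
    rw [h.mem_BB]
    exact ⟨⟨ha.1 0 0, (ha.1 0 1).mono (by norm_num), h13, ha.1 1 1⟩,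
      ⟨ha.2 0 0, (ha.2 0 1).mono (by norm_num), h.low_inv ha.1 ha.2 h13, ha.2 1 1⟩⟩
  uB := by
    intro g b hb h1 h2
    rw [Subgroup.mem_subgroupOf] at hb ⊢
    rw [h.mem_BB] at hb
    simp only [Subgroup.coe_mul] at h1 h2
    have c1 := h.vm_le (g : G2 R)
    rw [h.mem_ker.1 g.2] at c1
    have c2 := h.vm_le ((g : G2 R) * del t)
    rw [h.chi_mul, h.mem_ker.1 g.2, h.chi_del] at c2
    have c3 := h.vm_le ((g : G2 R) * (b : G2 R))
    rw [h.chi_mul, h.mem_ker.1 g.2, h.mem_ker.1 b.2] at c3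
    have h3 : h.vm ((g : G2 R) * del t) ≤ h.vm (g : G2 R) := by omega
    have h4 : h.vm ((g : G2 R) * del t) ≤ h.vm ((g : G2 R) * (b : G2 R)) := by omega
    rw [h.le_vm] at h3 h4
    obtain ⟨i, hi1⟩ : ∃ i, ¬ Ge lo (h.vm ((g : G2 R) * del t) + 1) ((g : G2 R).val i 0) := by
      by_contra hcon
      push Not at hcon
      have h5 : GeM lo (h.vm ((g : G2 R) * del t) + 1) ((g : G2 R) * del t) := by
        intro i k
        have h6 : k = 0 ∨ k = 1 := by fin_cases k <;> simp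
        rcases h6 with rfl | rfl
        · rw [(mul_del _ _).1]
          exact hcon i
        · rw [(mul_del _ _).2, h.ge_mul_t, add_sub_cancel_right]
          exact h3 i 1
      have := h.le_vm.2 h5
      omega
    obtain ⟨h6, h7⟩ := h.lo_of_not (h3 i 0) hi1
    have h8 := h4 i 1
    rw [mul_val] at h8
    have h10 : Ge lo (h.vm ((g : G2 R) * del t) + 0) ((g : G2 R).val i 0 * (b : G2 R).val 0 1) := by
      have h11 := h.ge_mul (h3 i 1) hb.1.2.2.2
      rw [add_zero] at h11 ⊢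
      have h12 := h.ge_sub h8 h11
      rwa [add_sub_cancel_right] at h12
    have h13 := h.ge_of_mul_left h6 h7 h10
    have h14 := h.up_inv' hb.1 hb.2 h13
    refine ⟨fun i k => ?_, fun i k => ?_⟩
    · fin_cases i <;> fin_cases k
      · exact hb.1.1
      · exact h13
      · exact hb.1.2.2.1.mono (by norm_num)
      · exact hb.1.2.2.2
    · fin_cases i <;> fin_cases k
      · exact hb.2.1
      · exact h14
      · exact hb.2.2.2.1.mono (by norm_num)
      · exact hb.2.2.2.2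
  base := by
    intro a ha
    rw [Subgroup.mem_subgroupOf] at ha
    have h1 := h.le_vm.2 ha.1
    have h2 : (- h.vm (a : G2 R)).toNat = 0 := by omega
    exact h2.le.trans (Nat.zero_le _)

end Laurent

end Pool.Agent.U563.BC
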