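import Mathlib
import Pool.Agent.U563.BC.H

/-!
# `GL_2` of a skew Laurent polynomial ring
-/

namespace Pool.Agent.U563.BC

open Pool.Agent.U919.GE
open Pool.Agent.U919.GE.DegreeOver (mul_val)

namespace Laurent

variable {R : Type} [Ring R] {lo hi : R → ℤ} {t : Rˣ}

theorem dgl_mul (u v u' v' : Rˣ) : (dgl u v * dgl u' v' : G2 R) = dgl (u * u') (v * v') := by
  apply Units.ext
  ext i k
  rw [mul_val]
  fin_cases i <;> fin_cases k
  · show (u : R) * u' + 0 * 0 = ((u * u' : Rˣ) : R)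
    rw [mul_zero, add_zero, Units.val_mul]
  · show (u : R) * 0 + 0 * v' = 0
    rw [mul_zero, zero_mul, add_zero]
  · show 0 * (u' : R) + v * 0 = 0
    rw [mul_zero, zero_mul, add_zero]
  · show 0 * 0 + (v : R) * v' = ((v * v' : Rˣ) : R)
    rw [mul_zero, zero_add, Units.val_mul]

theorem dgl_one : (dgl 1 1 : G2 R) = 1 := by
  apply Units.ext
  ext i k
  fin_cases i <;> fin_cases k <;> rfl

theorem dgl_inv (u v : Rˣ) : (dgl u v : G2 R)⁻¹ = dgl u⁻¹ v⁻¹ := by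
  rw [inv_eq_iff_mul_eq_one, dgl_mul, mul_inv_cancel, mul_inv_cancel, dgl_one]

/-- diagonal matrices -/
def dglH : Rˣ × Rˣ →* G2 R where
  toFun p := dgl p.1 p.2
  map_one' := dgl_one
  map_mul' p q := (dgl_mul p.1 p.2 q.1 q.2).symm

theorem dgl_zpow (u v : Rˣ) (n : ℤ) : (dgl u v : G2 R) ^ n = dgl (u ^ n) (v ^ n) :=
  (map_zpow (dglH (R := R)) (u, v) n).symm

theorem wl_dgl (u v : Rˣ) : (wl * dgl u v : G2 R) = dgl v u * wl := by
  apply Units.ext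
  ext i k
  rw [mul_val, mul_val, wl_val]
  fin_cases i <;> fin_cases k
  · show (0 : R) * u + 1 * 0 = v * 0 + 0 * (-1)
    rw [mul_zero, mul_zero, zero_mul, zero_mul]
  · show (0 : R) * 0 + 1 * v = v * 1 + 0 * 0
    rw [mul_zero, zero_add, add_zero, one_mul, mul_one]
  · show (-1 : R) * u + 0 * 0 = 0 * 0 + u * (-1)
    rw [mul_zero, zero_add, add_zero, neg_one_mul, mul_neg_one]
  · show (-1 : R) * 0 + 0 * v = 0 * 1 + u * 0
    rw [mul_zero, mul_zero, zero_mul, zero_mul]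

theorem dgl_up (u v : Rˣ) (s : R) : (dgl u v * up s : G2 R) =
    up ((u : R) * s * ((v⁻¹ : Rˣ) : R)) * dgl u v := by
  apply Units.ext
  ext i k
  rw [mul_val, mul_val]
  fin_cases i <;> fin_cases k
  · show (u : R) * 1 + 0 * 0 = 1 * u + ((u : R) * s * ((v⁻¹ : Rˣ) : R)) * 0
    rw [mul_zero, mul_zero, one_mul, mul_one]
  · show (u : R) * s + 0 * 1 = 1 * 0 + ((u : R) * s * ((v⁻¹ : Rˣ) : R)) * v
    rw [mul_zero, zero_mul, zero_add, add_zero, mul_assoc, v.inv_mul, mul_one]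
  · show (0 : R) * 1 + v * 0 = 0 * u + 1 * 0
    rw [mul_zero, mul_zero, zero_mul, zero_mul]
  · show (0 : R) * s + v * 1 = 0 * 0 + 1 * v
    rw [mul_zero, zero_mul, mul_one, one_mul]

theorem mem_BB_iff (h : Laurent R lo hi t) (b : G2 R) :
    b ∈ h.BB ↔ (del t)⁻¹ * b * del t ∈ h.AA := Iff.rfl

theorem conj_cancel {G : Type} [Group G] (x y : G) : x⁻¹ * (x * y * x⁻¹) * x = y := by group

theorem wB_mem (h : Laurent R lo hi t) : del t * wl * (del t)⁻¹ ∈ h.BB := by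
  rw [h.mem_BB_iff, conj_cancel]
  exact h.EE_le h.wl_EE

theorem D_mem (h : Laurent R lo hi t) : (dgl t⁻¹ t : G2 R) ∈ h.AA ⊔ h.BB := by
  have e : (dgl t⁻¹ t : G2 R) = (del t * wl * (del t)⁻¹) * wl⁻¹ := by
    have e1 : (del t : G2 R) * wl = wl * dgl t 1 := (wl_dgl t 1).symm
    have e2 : ((del t : G2 R))⁻¹ = dgl 1 t⁻¹ := by
      rw [del, dgl_inv, inv_one]
    rw [e1, e2, mul_assoc wl, dgl_mul, mul_one, one_mul, wl_dgl, mul_inv_cancel_right]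
  rw [e]
  exact mul_mem (Subgroup.mem_sup_right h.wB_mem)
    (Subgroup.mem_sup_left (inv_mem (h.EE_le h.wl_EE)))

theorem dgl_t_mem (h : Laurent R lo hi t) (n : ℤ) : (dgl (t ^ (-n)) (t ^ n) : G2 R) ∈
    h.AA ⊔ h.BB := by
  have h1 := zpow_mem h.D_mem n
  rw [dgl_zpow] at h1
  rwa [zpow_neg, ← inv_zpow]

theorem lo_zpow (h : Laurent R lo hi t) (n : ℤ) : lo ((t ^ n : Rˣ) : R) = n := by
  have h1 : ∀ k : ℕ, lo ((t ^ k : Rˣ) : R) = k := by
    intro k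
    induction k with
    | zero =>
      rw [pow_zero, Units.val_one, h.lo_one]
      rfl
    | succ k ih =>
      rw [pow_succ, Units.val_mul, h.lo_mul _ _ (h.unit_ne _) (h.unit_ne _), ih, h.lo_t]
      push_cast
      rfl
  obtain ⟨k, rfl | rfl⟩ := n.eq_nat_or_neg
  · rw [zpow_natCast]
    exact h1 k
  · rw [zpow_neg, h.lo_inv, zpow_natCast, h1]

theorem up_mem (h : Laurent R lo hi t) (r : R) : up r ∈ h.AA ⊔ h.BB := by
  by_cases hr : r = 0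
  · rw [hr, up_zero]
    exact one_mem _
  obtain ⟨n, hn⟩ : ∃ n : ℤ, 0 ≤ n + lo r + n := ⟨|lo r|, by
    have h1 := neg_abs_le (lo r)
    have h2 := abs_nonneg (lo r)
    omega⟩
  obtain ⟨s, hs⟩ : ∃ s : R, s = ((t ^ n : Rˣ) : R) * r * ((t ^ n : Rˣ) : R) := ⟨_, rfl⟩
  have hs0 : Ge lo 0 s := by
    right
    rw [hs, h.lo_mul _ _ (h.mul_ne _ _ (h.unit_ne _) hr) (h.unit_ne _),
      h.lo_mul _ _ (h.unit_ne _) hr, h.lo_zpow]
    exact hn
  have e1 := dgl_up (t ^ (-n)) (t ^ n) s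
  have e2 : ((t ^ (-n) : Rˣ) : R) * s * (((t ^ n)⁻¹ : Rˣ) : R) = r := by
    rw [hs, zpow_neg]
    have a1 : (((t ^ n)⁻¹ : Rˣ) : R) * ((t ^ n : Rˣ) : R) = 1 := (t ^ n).inv_mul
    have a2 : ((t ^ n : Rˣ) : R) * (((t ^ n)⁻¹ : Rˣ) : R) = 1 := (t ^ n).mul_inv
    rw [← mul_assoc, ← mul_assoc, a1, one_mul, mul_assoc, a2, mul_one]
  rw [e2] at e1
  have e3 : up r = dgl (t ^ (-n)) (t ^ n) * up s * (dgl (t ^ (-n)) (t ^ n))⁻¹ := by
    rw [e1, mul_inv_cancel_right]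
  rw [e3]
  exact mul_mem (mul_mem (h.dgl_t_mem n) (Subgroup.mem_sup_left (h.EE_le (h.up_EE hs0))))
    (inv_mem (h.dgl_t_mem n))

theorem ker_le (h : Laurent R lo hi t) : h.chiH.ker ≤ h.AA ⊔ h.BB := by
  intro g hg
  rw [h.mem_ker] at hg
  obtain ⟨k, hk, hk0⟩ := h.iwasawa g
  obtain ⟨u, v, s, hu, hv, -, e⟩ := h.tri_dec hk0
  have h1 := h.chi_tri hk0
  rw [h.chi_right _ (h.EE_le hk), hg, ← hu, ← hv] at h1
  have h2 : dgl u v ∈ h.AA ⊔ h.BB := by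
    have e1 : (dgl u v : G2 R) = dgl (t ^ (-(lo (v : R)))) (t ^ (lo (v : R))) *
        dgl ((t ^ (-(lo (v : R))))⁻¹ * u) ((t ^ (lo (v : R)))⁻¹ * v) := by
      rw [dgl_mul, mul_inv_cancel_left, mul_inv_cancel_left]
    rw [e1]
    refine mul_mem (h.dgl_t_mem _) (Subgroup.mem_sup_left (h.EE_le (h.dgl_EE ?_ ?_)))
    · rw [Units.val_mul, h.lo_mul _ _ (h.unit_ne _) (h.unit_ne _), h.lo_inv, h.lo_zpow]
      omega
    · rw [Units.val_mul, h.lo_mul _ _ (h.unit_ne _) (h.unit_ne _), h.lo_inv, h.lo_zpow]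
      omega
  have h3 : g * k ∈ h.AA ⊔ h.BB := by
    rw [e]
    exact mul_mem h2 (h.up_mem s)
  have h4 := mul_mem h3 (inv_mem (Subgroup.mem_sup_left (h.EE_le hk) : k ∈ h.AA ⊔ h.BB))
  rwa [mul_inv_cancel_right] at h4

end Laurent

end Pool.Agent.U563.BC
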