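import Mathlib
import Pool.Agent.U563.BC.I

/-!
# `GL_2` of a skew Laurent polynomial ring, continued
-/

namespace Pool.Agent.U563.BC

open Pool.Agent.U919.GE
open Pool.Agent.U919.GE.DegreeOver (mul_val)

namespace Laurent

variable {R : Type} [Ring R] {lo hi : R → ℤ} {t : Rˣ}

variable {C : ∀ (G : Type) [Group G], Prop}

theorem C_BB (h : Laurent R lo hi t) (hC : BCClass C) : C h.BB := by
  refine hC.of_map (H := G2 R) (L := h.AA)
    ((MulAut.conj (del t)⁻¹).toMonoidHom.comp h.BB.subtype) ?_ ?_ (h.C_AA hC)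
  · intro x y hxy
    exact Subtype.ext ((MulAut.conj (del t)⁻¹).injective hxy)
  · intro x
    have h1 := (h.mem_BB_iff _).1 x.2
    have e : ((MulAut.conj (del t)⁻¹).toMonoidHom.comp h.BB.subtype) x =
        (del t)⁻¹ * (x : G2 R) * del t := by
      rw [MonoidHom.comp_apply]
      change (del t)⁻¹ * (x : G2 R) * (del t)⁻¹⁻¹ = _
      rw [inv_inv]
    rw [e]
    exact h1

theorem AA_ker (h : Laurent R lo hi t) : h.AA ≤ h.chiH.ker := by
  intro g hg
  rw [h.mem_ker]
  have h1 := h.chi_right 1 hg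
  rw [one_mul] at h1
  rw [h1, ← h.mem_ker]
  exact one_mem _

theorem BB_ker (h : Laurent R lo hi t) : h.BB ≤ h.chiH.ker := by
  intro g hg
  have h1 : (del t)⁻¹ * g * del t ∈ h.chiH.ker := h.AA_ker ((h.mem_BB_iff g).1 hg)
  rw [MonoidHom.mem_ker, map_mul, map_mul, map_inv, mul_comm, mul_inv_cancel_left] at h1
  exact h1

theorem C_ker (h : Laurent R lo hi t) (hC : BCClass C) : C h.chiH.ker := by
  have h1 := hC.tree_mem h.lvl
    (hC.of_map (H := G2 R) (L := h.AA) (h.chiH.ker.subtype.comp (Subgroup.subtype _))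
      (fun x y hxy => Subtype.ext (Subtype.ext hxy)) (fun x => x.2) (h.C_AA hC))
    (hC.of_map (H := G2 R) (L := h.BB) (h.chiH.ker.subtype.comp (Subgroup.subtype _))
      (fun x y hxy => Subtype.ext (Subtype.ext hxy)) (fun x => x.2) (h.C_BB hC))
  rw [← Subgroup.subgroupOf_sup h.AA_ker h.BB_ker] at h1
  exact hC.of_map (G := G2 R) (K := h.chiH.ker) (H := h.chiH.ker) (MonoidHom.id _)
    (fun x y hxy => hxy) (fun x => h.ker_le x.2) h1

/-- **`GL_2` of a skew Laurent polynomial ring.** -/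
theorem C_G2 (h : Laurent R lo hi t) (hC : BCClass C) : C (G2 R) := by
  refine hC.ext _ (Multiplicative ℤ) h.chiH
    (hC.solvable _ ⊤ inferInstance inferInstance) (fun F hF => ?_)
  have hF1 : F = ⊥ := by
    rw [eq_bot_iff]
    intro x hx
    have h1 : IsOfFinOrder (⟨x, hx⟩ : F) := isOfFinOrder_of_finite _
    have h2 : IsOfFinOrder x := MonoidHom.isOfFinOrder F.subtype h1
    rw [Subgroup.mem_bot]
    by_contra hne
    have h3 : (x.toAdd : ℤ) ≠ 0 := fun h0 => hne (Multiplicative.toAdd.injective h0)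
    rw [isOfFinOrder_iff_pow_eq_one] at h2
    obtain ⟨n, hn, hn1⟩ := h2
    have h4 := congrArg Multiplicative.toAdd hn1
    rw [toAdd_pow, toAdd_one, nsmul_eq_mul, mul_eq_zero] at h4
    rcases h4 with h4 | h4
    · have : n = 0 := by exact_mod_cast h4
      omega
    · exact h3 h4
  refine hC.of_le (L := h.chiH.ker) ?_ (h.C_ker hC)
  intro g hg
  rw [hF1] at hg
  exact hg

end Laurent

end Pool.Agent.U563.BC
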