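import Mathlib
import Pool.Agent.U563.BC.LDef

/-!
# The class of rings
-/

namespace Pool.Agent.U563.BC

/-- The smallest class of rings with the following properties. (`laurent`) It contains the rings
with the property `Laurent`. (`ore`) It contains each ring `S` with a degree function such that the
ring of the elements of degree zero is a commutative field `K` and there is division with remainder:
for all `a` and `b ≠ 0` there is `q` such that `a - b * q` is zero or has smaller degree than `b`.
(`sub`) It contains the subrings of its members, (`prod`) the products of two members, and (`nil`)
each ring with a homomorphism `f` to a member such that the product of any two elements of the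
kernel of `f` is zero. -/
inductive Tame : ∀ (R : Type) [Ring R], Prop
  | laurent (R : Type) [Ring R] (lo hi : R → ℤ) (t : Rˣ) : Laurent R lo hi t → Tame R
  | ore (K S : Type) [Field K] [Ring S] (j : K →+* S) (d : S → ℕ) : Deg j d →
      (∀ a b : S, b ≠ 0 → ∃ q : S, a - b * q = 0 ∨ d (a - b * q) < d b) → Tame S
  | sub (R S : Type) [Ring R] [Ring S] (f : R →+* S) : Function.Injective f → Tame S → Tame R
  | prod (R S : Type) [Ring R] [Ring S] : Tame R → Tame S → Tame (R × S)
  | nil (R S : Type) [Ring R] [Ring S] (f : R →+* S) :
      (∀ a b : R, f a = 0 → f b = 0 → a * b = 0) → Tame S → Tame R

end Pool.Agent.U563.BC
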