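import Mathlib
import Pool.Agent.U563.BC.J
import Pool.Agent.U563.BC.TDef

/-!
# The main theorem
-/

namespace Pool.Agent.U563.BC

open Pool.Agent.U919.GE
open Pool.Agent.U919.GE.DegreeOver (mul_val)

variable {C : ∀ (G : Type) [Group G], Prop}

theorem BCClass.prod_mem (hC : BCClass C) {G H : Type} [Group G] [Group H] (hG : C G) (hH : C H) :
    C (G × H) := by
  refine hC.ext (G × H) H (MonoidHom.snd G H) hH (fun F hF => ?_)
  refine hC.ext _ G ((MonoidHom.fst G H).comp (Subgroup.subtype _)) hG (fun F' hF' => ?_)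
  have hfin : Finite ↥(F'.comap ((MonoidHom.fst G H).comp (F.comap (MonoidHom.snd G H)).subtype)) := by
    refine Finite.of_injective (β := F' × F)
      (fun x => (⟨((x : F.comap (MonoidHom.snd G H)) : G × H).1, x.2⟩,
        ⟨((x : F.comap (MonoidHom.snd G H)) : G × H).2,
          (x : F.comap (MonoidHom.snd G H)).2⟩)) ?_
    intro x y hxy
    have h1 := congrArg (fun z : F' × F => (z.1 : G)) hxy
    have h2 := congrArg (fun z : F' × F => (z.2 : H)) hxy
    exact Subtype.ext (Subtype.ext (Prod.ext h1 h2))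
  refine hC.solvable _ ⊥ ?_ inferInstance
  infer_instance

theorem BCClass.of_top (hC : BCClass C) {G : Type} [Group G] {K : Subgroup G} (h : K = ⊤)
    (hK : C K) : C G :=
  hC.sub G K ((MonoidHom.id G).codRestrict K (fun x => by rw [h]; exact Subgroup.mem_top _))
    (fun x y hxy => congrArg (fun z : K => (z : G)) hxy) hK

variable {R S : Type} [Ring R] [Ring S] {j : R →+* S} {d : S → ℕ}

theorem ore_euclid (h : Deg j d)
    (hdiv : ∀ a b : S, b ≠ 0 → ∃ q : S, a - b * q = 0 ∨ d (a - b * q) < d b) (n : ℕ) :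
    ∀ g : G2 S, (g.val 1 0 = 0 ∨ d (g.val 1 0) < n) → ∃ k ∈ GE2 S, (g * k).val 1 0 = 0 := by
  induction n with
  | zero =>
    rintro g (h1 | h1)
    · exact ⟨1, one_mem _, by rw [mul_one]; exact h1⟩
    · exact absurd h1 (Nat.not_lt_zero _)
  | succ n ih =>
    intro g h1
    by_cases h0 : g.val 1 0 = 0
    · exact ⟨1, one_mem _, by rw [mul_one]; exact h0⟩
    have h2 : d (g.val 1 0) < n + 1 := by
      rcases h1 with h1 | h1
      · exact absurd h1 h0
      · exact h1
    obtain ⟨q, hq⟩ := hdiv (g.val 1 1) (g.val 1 0) h0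
    have e : (g * up (-q) * wl).val 1 0 = -(g.val 1 1 - g.val 1 0 * q) := by
      rw [Laurent.wl_v0', Laurent.up_v1', mul_neg]
      abel
    obtain ⟨k, hk, hk0⟩ := ih (g * up (-q) * wl) (by
      rw [e, h.d_neg, neg_eq_zero]
      rcases hq with hq | hq
      · exact Or.inl hq
      · right
        omega)
    refine ⟨up (-q) * wl * k, mul_mem (mul_mem (E2_le_GE2 (up_mem_E2 _)) ?_) hk, ?_⟩
    · exact wl_mem _ (E2_le_GE2 (up_mem_E2 _)) (E2_le_GE2 (low_mem_E2 _))
    · rw [← mul_assoc, ← mul_assoc]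
      exact hk0

theorem ore_top (h : Deg j d)
    (hdiv : ∀ a b : S, b ≠ 0 → ∃ q : S, a - b * q = 0 ∨ d (a - b * q) < d b) :
    GE2 S = ⊤ := by
  rw [eq_top_iff]
  rintro g -
  obtain ⟨k, hk, hk0⟩ := ore_euclid h hdiv (d (g.val 1 0) + 1) g (Or.inr (Nat.lt_succ_self _))
  obtain ⟨h1, h2, h3, h4, h5⟩ := h.inv_tri hk0
  have e : g * k = dgl ⟨(g * k).val 0 0, (g * k).inv 0 0, h3, h2⟩
      ⟨(g * k).val 1 1, (g * k).inv 1 1, h4, h5⟩ * up ((g * k).inv 0 0 * (g * k).val 0 1) := by
    apply Units.ext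
    ext i l
    rw [mul_val (dgl _ _)]
    fin_cases i <;> fin_cases l
    · show (g * k).val 0 0 = (g * k).val 0 0 * 1 + 0 * 0
      rw [mul_one, mul_zero, add_zero]
    · show (g * k).val 0 1 = (g * k).val 0 0 * ((g * k).inv 0 0 * (g * k).val 0 1) + 0 * 1
      rw [← mul_assoc, h3, one_mul, zero_mul, add_zero]
    · show (g * k).val 1 0 = 0 * 1 + (g * k).val 1 1 * 0
      rw [hk0, mul_zero, zero_mul, add_zero]
    · show (g * k).val 1 1 = 0 * ((g * k).inv 0 0 * (g * k).val 0 1) + (g * k).val 1 1 * 1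
      rw [zero_mul, zero_add, mul_one]
  have h6 : g * k ∈ GE2 S := by
    rw [e]
    exact mul_mem (Subgroup.subset_closure (Or.inr ⟨(_, _), rfl⟩)) (E2_le_GE2 (up_mem_E2 _))
  have := mul_mem h6 (inv_mem hk)
  rwa [mul_inv_cancel_right] at this

theorem mp_inj {f : R →+* S} (hf : Function.Injective f) : Function.Injective (mp f) := by
  intro a b hab
  apply Units.ext
  ext i k
  apply hf
  have := congrArg (fun x : G2 S => x.val i k) hab
  simpa [mp_apply] using this

/-- **Tame rings.** -/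
theorem Tame.mem (hC : BCClass C) {R : Type} [Ring R] (h : Tame R) : C (G2 R) := by
  induction h with
  | laurent R lo hi t h => exact h.C_G2 hC
  | ore K S j d h hdiv =>
    have h1 : C ↥(GE2 K) := hC.sub _ _ (GE2 K).subtype (GE2 K).subtype_injective (hC.linear K)
    exact hC.of_top (ore_top h hdiv) (hC.GE2_mem h h1)
  | sub R S f hf _ ih => exact hC.sub _ _ (mp f) (mp_inj hf) ih
  | prod R S _ _ ih1 ih2 =>
    refine hC.sub _ _ ((mp (RingHom.fst R S)).prod (mp (RingHom.snd R S))) ?_
      (hC.prod_mem ih1 ih2)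
    intro a b hab
    have h1 := congrArg Prod.fst hab
    have h2 := congrArg Prod.snd hab
    apply Units.ext
    ext i k
    · have := congrArg (fun x : G2 R => x.val i k) h1
      simpa [mp_apply] using this
    · have := congrArg (fun x : G2 S => x.val i k) h2
      simpa [mp_apply] using this
  | nil R S f hf _ ih =>
    refine hC.comm_ext (mp f) ?_ ih
    intro x y hx hy
    have key : ∀ z : G2 R, mp f z = 1 → ∀ i k, f ((z.val - 1) i k) = 0 := by
      intro z hz i k
      have h1 : (mp f z).val i k = (1 : Matrix (Fin 2) (Fin 2) S) i k := by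
        rw [hz]
        rfl
      rw [mp_apply] at h1
      rw [Matrix.sub_apply, map_sub, h1]
      by_cases hik : i = k
      · rw [hik, Matrix.one_apply_eq, Matrix.one_apply_eq, map_one, sub_self]
      · rw [Matrix.one_apply_ne hik, Matrix.one_apply_ne hik, map_zero, sub_self]
    have h0 : ∀ z w : G2 R, mp f z = 1 → mp f w = 1 → (z.val - 1) * (w.val - 1) = 0 := by
      intro z w hz hw
      ext i k
      rw [Matrix.mul_apply, Fin.sum_univ_two, hf _ _ (key z hz _ _) (key w hw _ _),
        hf _ _ (key z hz _ _) (key w hw _ _), add_zero]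
      rfl
    have h1 := h0 x y hx hy
    have h2 := h0 y x hy hx
    apply Units.ext
    rw [Units.val_mul, Units.val_mul]
    have e1 : x.val * y.val = (x.val - 1) * (y.val - 1) + x.val + y.val - 1 := by noncomm_ring
    have e2 : y.val * x.val = (y.val - 1) * (x.val - 1) + x.val + y.val - 1 := by noncomm_ring
    rw [e1, e2, h1, h2]

/-- Degree rings. -/
theorem BCClass.gen_iff (hC : BCClass C) (h : Deg j d) (A : Subgroup (G2 R))
    (hU : ∀ r, up r ∈ A) : C ↥(A.map (mp j) ⊔ U2 S) ↔ C A := by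
  refine ⟨fun h1 => ?_, fun h1 => hC.deg h A hU h1⟩
  refine hC.of_map ((mp j).comp A.subtype) ?_ (fun x => ?_) h1
  · intro x y hxy
    exact Subtype.ext (mp_inj h.inj hxy)
  · exact Subgroup.mem_sup_left ⟨x.1, x.2, rfl⟩

end Pool.Agent.U563.BC
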