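import Mathlib
import Pool.Agent.U563.BC.K

/-!
# Semilinear groups
-/

namespace Pool.Agent.U563.BC

open Pool.Agent.U919.GE
open Pool.Agent.U919.GE.DegreeOver (lN lM mul_val Pair)

/-- The automorphism of the group of matrices given by an automorphism of the ring. -/
def mpE (R : Type) [Ring R] : RingAut R →* MulAut (G2 R) where
  toFun e := Units.mapEquiv (e.mapMatrix (m := Fin 2)).toMulEquiv
  map_one' := by
    ext x i k
    rfl
  map_mul' e e' := by
    ext x i k
    rfl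

/-- The semidirect product of `GL_2(R)` with a group which acts on the ring `R`. -/
abbrev SL (R H : Type) [Ring R] [Group H] (ρ : H →* RingAut R) : Type :=
  G2 R ⋊[(mpE R).comp ρ] H

theorem Lvl.pull {Γ Γ' : Type} [Group Γ] [Group Γ'] {A B : Subgroup Γ} {N M : Γ → ℕ}
    (h : Lvl A B N M) (p : Γ' → Γ) (A' B' : Subgroup Γ') (hA : ∀ y, y ∈ A' ↔ p y ∈ A)
    (hB : ∀ y, y ∈ B' ↔ p y ∈ B)
    (hp : ∀ x, ∃ θ : Γ → Γ, (∀ y, p (x * y) = p x * θ (p y)) ∧ (∀ a, θ a ∈ A ↔ a ∈ A) ∧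
      ∀ b, θ b ∈ B ↔ b ∈ B) : Lvl A' B' (fun x => N (p x)) (fun x => M (p x)) where
  hN := by
    intro x a ha
    obtain ⟨θ, h1, h2, h3⟩ := hp x
    change N (p (x * a)) = N (p x)
    rw [h1, h.hN _ _ ((h2 _).2 ((hA _).1 ha))]
  hM := by
    intro x b hb
    obtain ⟨θ, h1, h2, h3⟩ := hp x
    change M (p (x * b)) = M (p x)
    rw [h1, h.hM _ _ ((h3 _).2 ((hB _).1 hb))]
  uA := by
    intro x a ha h4 h5
    obtain ⟨θ, h1, h2, h3⟩ := hp x
    change M (p (x * a)) < N (p x) at h5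
    rw [h1] at h5
    exact (hB _).2 ((h3 _).1 (h.uA (p x) _ ((h2 _).2 ((hA _).1 ha)) h4 h5))
  uB := by
    intro x b hb h4 h5
    obtain ⟨θ, h1, h2, h3⟩ := hp x
    change N (p (x * b)) ≤ M (p x) at h5
    rw [h1] at h5
    exact (hA _).2 ((h2 _).1 (h.uB (p x) _ ((h3 _).2 ((hB _).1 hb)) h4 h5))
  base := fun a ha => h.base _ ((hA _).1 ha)

theorem mpE_val {R : Type} [Ring R] (e : RingAut R) (g : G2 R) (i k : Fin 2) :
    (mpE R e g).val i k = e (g.val i k) := rfl

theorem mpE_inv {R : Type} [Ring R] (e : RingAut R) (g : G2 R) (i k : Fin 2) :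
    (mpE R e g).inv i k = e (g.inv i k) := rfl

variable {K S : Type} [Field K] [Ring S] {j : K →+* S} {d : S → ℕ}

theorem mem_map_top (h : Deg j d) {g : G2 S} : g ∈ (⊤ : Subgroup (G2 K)).map (mp j) ↔
    ∀ i k, d (g.val i k) = 0 ∧ d (g.inv i k) = 0 := by
  constructor
  · rintro ⟨a, -, rfl⟩ i k
    refine ⟨by rw [mp_apply]; exact h.d_j _, ?_⟩
    show d ((mp j a)⁻¹.val i k) = 0
    rw [← map_inv, mp_apply]
    exact h.d_j _
  · intro hd
    choose v hv using fun i k => (h.zero_iff (g.val i k)).1 (hd i k).1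
    choose w hw using fun i k => (h.zero_iff (g.inv i k)).1 (hd i k).2
    have e1 : (Matrix.of v) * (Matrix.of w) = 1 := by
      ext i k
      apply h.inj
      have := congrArg (fun m : Matrix (Fin 2) (Fin 2) S => m i k) g.val_inv
      simp only [Matrix.mul_apply, Fin.sum_univ_two] at this
      rw [Matrix.mul_apply, Fin.sum_univ_two, map_add, map_mul, map_mul]
      simp only [Matrix.of_apply]
      rw [hv, hv, hw, hw, this]
      by_cases hik : i = k
      · rw [hik, Matrix.one_apply_eq, Matrix.one_apply_eq, map_one]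
      · rw [Matrix.one_apply_ne hik, Matrix.one_apply_ne hik, map_zero]
    have e2 : (Matrix.of w) * (Matrix.of v) = 1 := by
      ext i k
      apply h.inj
      have := congrArg (fun m : Matrix (Fin 2) (Fin 2) S => m i k) g.inv_val
      simp only [Matrix.mul_apply, Fin.sum_univ_two] at this
      rw [Matrix.mul_apply, Fin.sum_univ_two, map_add, map_mul, map_mul]
      simp only [Matrix.of_apply]
      rw [hv, hv, hw, hw, this]
      by_cases hik : i = k
      · rw [hik, Matrix.one_apply_eq, Matrix.one_apply_eq, map_one]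
      · rw [Matrix.one_apply_ne hik, Matrix.one_apply_ne hik, map_zero]
    refine ⟨⟨Matrix.of v, Matrix.of w, e1, e2⟩, trivial, ?_⟩
    apply Units.ext
    ext i k
    exact hv i k

theorem mem_Bsub_top (h : Deg j d) {g : G2 S} : g ∈ Bsub h ((⊤ : Subgroup (G2 K)).map (mp j)) ↔
    g.val 1 0 = 0 ∧ d (g.val 0 0) = 0 ∧ d (g.val 1 1) = 0 := by
  constructor
  · intro hg
    exact (pair h ⊤ (fun r => trivial)).hB g hg
  · rintro ⟨h1, h2, h3⟩
    obtain ⟨g1, g2, g3, g4, g5⟩ := h.inv_tri h1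
    have key : ∀ {x y : S}, x * y = 1 → d x = 0 → d y = 0 := by
      intro x y hxy hx
      have hx0 : x ≠ 0 := fun h0 => h.nontrivial (by rw [← hxy, h0, zero_mul])
      have hy0 : y ≠ 0 := fun h0 => h.nontrivial (by rw [← hxy, h0, mul_zero])
      have h7 := h.mul x y hx0 hy0
      rw [hxy, h.d_one] at h7
      omega
    refine mem_Bsub.2 ⟨h1, dgl ⟨g.val 0 0, g.inv 0 0, g3, g2⟩ ⟨g.val 1 1, g.inv 1 1, g4, g5⟩,
      (mem_map_top h).2 ?_, rfl, rfl, rfl⟩
    intro i k
    fin_cases i <;> fin_cases k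
    · exact ⟨h2, key g3 h2⟩
    · exact ⟨h.d_zero, h.d_zero⟩
    · exact ⟨h.d_zero, h.d_zero⟩
    · exact ⟨h3, key g4 h3⟩

end Pool.Agent.U563.BC
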