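import Mathlib
import Pool.Agent.U563.BC.SA
import Pool.Agent.U919.GE.Ex

/-!
# Semilinear groups over rings with a degree function
-/

namespace Pool.Agent.U563.BC

open Pool.Agent.U919.GE
open Pool.Agent.U919.GE.DegreeOver (lN lM mul_val Pair)

variable {C : ∀ (G : Type) [Group G], Prop}

/-- The closure properties `BCClass C`, and `C` contains each group which has a subgroup of finite
index which embeds in `GL_2` of a commutative field. -/
structure BCClass2 (C : ∀ (G : Type) [Group G], Prop) : Prop extends BCClass C where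
  vlinear : ∀ (G K : Type) [Group G] [Field K] (N : Subgroup G) (f : N →* G2 K),
    N.FiniteIndex → Function.Injective f → C G

section left

variable {R H : Type} [Ring R] [Group H] {ρ : H →* RingAut R}

/-- the elements with left component in `A` -/
def pre (ρ : H →* RingAut R) (A : Subgroup (G2 R))
    (hA : ∀ (x : H) (a : G2 R), mpE R (ρ x) a ∈ A ↔ a ∈ A) : Subgroup (SL R H ρ) where
  carrier := {x | x.left ∈ A}
  one_mem' := one_mem A
  mul_mem' := by
    intro x y hx hy
    exact mul_mem hx ((hA _ _).2 hy)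
  inv_mem' := by
    intro x hx
    change (x⁻¹).left ∈ A
    rw [SemidirectProduct.inv_left]
    exact (hA _ _).2 (inv_mem hx)

theorem mem_pre {A : Subgroup (G2 R)} {hA : ∀ (x : H) (a : G2 R), mpE R (ρ x) a ∈ A ↔ a ∈ A}
    {x : SL R H ρ} : x ∈ pre ρ A hA ↔ x.left ∈ A := Iff.rfl

/-- the elements of `pre` with trivial right component -/
def triv {A : Subgroup (G2 R)} (hA : ∀ (x : H) (a : G2 R), mpE R (ρ x) a ∈ A ↔ a ∈ A) :
    Subgroup (pre ρ A hA) := (SemidirectProduct.rightHom.comp (pre ρ A hA).subtype).ker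

theorem triv_fi [Finite H] {A : Subgroup (G2 R)}
    (hA : ∀ (x : H) (a : G2 R), mpE R (ρ x) a ∈ A ↔ a ∈ A) : (triv (ρ := ρ) hA).FiniteIndex := by
  unfold triv
  infer_instance

/-- the left component -/
def trivH {A : Subgroup (G2 R)} (hA : ∀ (x : H) (a : G2 R), mpE R (ρ x) a ∈ A ↔ a ∈ A) :
    triv (ρ := ρ) hA →* A where
  toFun x := ⟨((x : pre ρ A hA) : SL R H ρ).left, (x : pre ρ A hA).2⟩
  map_one' := rfl
  map_mul' := by
    intro x y
    apply Subtype.ext
    have h1 : ((x : pre ρ A hA) : SL R H ρ).right = 1 := x.2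
    change (((x : pre ρ A hA) : SL R H ρ) * ((y : pre ρ A hA) : SL R H ρ)).left = _
    rw [SemidirectProduct.mul_left, h1, map_one]
    rfl

theorem trivH_inj {A : Subgroup (G2 R)}
    (hA : ∀ (x : H) (a : G2 R), mpE R (ρ x) a ∈ A ↔ a ∈ A) :
    Function.Injective (trivH (ρ := ρ) hA) := by
  intro x y hxy
  apply Subtype.ext
  apply Subtype.ext
  have h1 : ((x : pre ρ A hA) : SL R H ρ).right = 1 := x.2
  have h2 : ((y : pre ρ A hA) : SL R H ρ).right = 1 := y.2
  exact SemidirectProduct.ext (congrArg (fun z : A => (z : G2 R)) hxy) (h1.trans h2.symm)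

end left

section deg

variable {K S H : Type} [Field K] [Ring S] [Group H] {j : K →+* S} {d : S → ℕ}
  {ρ : H →* RingAut S}

theorem inv_A (h : Deg j d) (hρ : ∀ (x : H) (s : S), d (ρ x s) = d s) (x : H) (a : G2 S) :
    mpE S (ρ x) a ∈ (⊤ : Subgroup (G2 K)).map (mp j) ↔ a ∈ (⊤ : Subgroup (G2 K)).map (mp j) := by
  rw [mem_map_top h, mem_map_top h]
  refine forall_congr' fun i => forall_congr' fun k => ?_
  rw [mpE_val, mpE_inv, hρ, hρ]

theorem inv_B (h : Deg j d) (hρ : ∀ (x : H) (s : S), d (ρ x s) = d s) (x : H) (a : G2 S) :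
    mpE S (ρ x) a ∈ Bsub h ((⊤ : Subgroup (G2 K)).map (mp j)) ↔
      a ∈ Bsub h ((⊤ : Subgroup (G2 K)).map (mp j)) := by
  rw [mem_Bsub_top, mem_Bsub_top, mpE_val, mpE_val, mpE_val, hρ, hρ, map_eq_zero_iff _
    (ρ x).injective]

theorem solv_B (h : Deg j d) :
    Group.IsSolvable (Bsub h ((⊤ : Subgroup (G2 K)).map (mp j))) := by
  let B := Bsub h ((⊤ : Subgroup (G2 K)).map (mp j))
  let f := dgU h ((⊤ : Subgroup (G2 K)).map (mp j))
  have h1 : Group.IsSolvable f.ker := by
    apply Group.isSolvable_of_comm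
    intro x y
    apply Subtype.ext
    apply Subtype.ext
    have hx := dgU_ker h (x : B) x.2
    have hy := dgU_ker h (y : B) y.2
    change ((x : B) : G2 S) * ((y : B) : G2 S) = ((y : B) : G2 S) * ((x : B) : G2 S)
    rw [hx, hy, ← up_add, ← up_add, add_comm]
  have h2 : Group.IsSolvable f.range := by
    apply Group.isSolvable_of_comm
    rintro ⟨_, x, rfl⟩ ⟨_, y, rfl⟩
    apply Subtype.ext
    change f x * f y = f y * f x
    have hc : ∀ a b : S, d a = 0 → d b = 0 → a * b = b * a := by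
      intro a b ha hb
      obtain ⟨a', rfl⟩ := (h.zero_iff a).1 ha
      obtain ⟨b', rfl⟩ := (h.zero_iff b).1 hb
      rw [← map_mul, ← map_mul, mul_comm]
    obtain ⟨-, x1, x2⟩ := (mem_Bsub_top h).1 x.2
    obtain ⟨-, y1, y2⟩ := (mem_Bsub_top h).1 y.2
    apply Units.ext
    ext i k
    rw [mul_val, mul_val]
    fin_cases i <;> fin_cases k
    · show (x : G2 S).val 0 0 * (y : G2 S).val 0 0 + 0 * 0 =
        (y : G2 S).val 0 0 * (x : G2 S).val 0 0 + 0 * 0
      rw [hc _ _ x1 y1]
    · show (x : G2 S).val 0 0 * 0 + 0 * (y : G2 S).val 1 1 =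
        (y : G2 S).val 0 0 * 0 + 0 * (x : G2 S).val 1 1
      rw [mul_zero, mul_zero, zero_mul, zero_mul]
    · show 0 * (y : G2 S).val 0 0 + (x : G2 S).val 1 1 * 0 =
        0 * (x : G2 S).val 0 0 + (y : G2 S).val 1 1 * 0
      rw [mul_zero, mul_zero, zero_mul, zero_mul]
    · show 0 * 0 + (x : G2 S).val 1 1 * (y : G2 S).val 1 1 =
        0 * 0 + (y : G2 S).val 1 1 * (x : G2 S).val 1 1
      rw [hc _ _ x2 y2]
  exact Group.isSolvable_of_ker_le_range f.ker.subtype f.rangeRestrict (by
    rw [Subgroup.range_subtype, MonoidHom.ker_rangeRestrict])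

/-- Finite groups acting on a ring with a degree function. -/
theorem BCClass2.deg_finite (hC : BCClass2 C) (h : Deg j d) (hρ : ∀ (x : H) (s : S), d (ρ x s) = d s)
    (hS : GE2 S = ⊤) [Finite H] : C (SL S H ρ) := by
  have hl := h.lvl (pair h ⊤ (fun r => trivial))
  have hL := Lvl.pull hl (fun x : SL S H ρ => x.left) (pre ρ _ (inv_A h hρ)) (pre ρ _ (inv_B h hρ))
    (fun _ => Iff.rfl) (fun _ => Iff.rfl) (fun x => ⟨mpE S (ρ x.right),
      fun y => SemidirectProduct.mul_left _ _, inv_A h hρ _, inv_B h hρ _⟩)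
  have hA : C (pre ρ _ (inv_A h hρ)) := by
    refine hC.vlinear _ K (triv (inv_A h hρ))
      ((Subgroup.topEquiv.toMonoidHom.comp
        (Subgroup.equivMapOfInjective ⊤ (mp j) (mp_inj h.inj)).symm.toMonoidHom).comp
          (trivH (inv_A h hρ))) (triv_fi _) ?_
    exact (Subgroup.topEquiv.injective.comp
      (Subgroup.equivMapOfInjective ⊤ (mp j) (mp_inj h.inj)).symm.injective).comp (trivH_inj _)
  have hB : C (pre ρ _ (inv_B h hρ)) := by
    have := solv_B h
    exact hC.solvable _ (triv (inv_B h hρ)) (triv_fi _)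
      (Group.isSolvable_of_isSolvable_injective (trivH_inj _))
  have h1 := hC.tree_mem hL hA hB
  refine hC.of_top ?_ h1
  rw [eq_top_iff]
  rintro x -
  have e : x = SemidirectProduct.inl x.left * SemidirectProduct.inr x.right :=
    (SemidirectProduct.inl_left_mul_inr_right x).symm
  rw [e]
  refine mul_mem ?_ (Subgroup.mem_sup_left (mem_pre.2 ?_))
  · have h2 : (⊤ : Subgroup (G2 S)) ≤ (pre ρ _ (inv_A h hρ) ⊔ pre ρ _ (inv_B h hρ)).comap
        SemidirectProduct.inl := by
      rw [← hS, ← GE2_eq h]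
      refine (sup_le_sup_right (Subgroup.map_mono le_top) _).trans ?_
      rw [← sup_eq h ⊤]
      refine sup_le (fun a ha => ?_) (fun b hb => ?_)
      · exact Subgroup.mem_sup_left (mem_pre.2 ha)
      · exact Subgroup.mem_sup_right (mem_pre.2 hb)
    exact h2 (Subgroup.mem_top x.left)
  · rw [SemidirectProduct.left_inr]
    exact one_mem _

end deg

end Pool.Agent.U563.BC
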