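import Mathlib
import Pool.Agent.U563.BC.SB

/-!
# Semilinear groups over skew Laurent polynomial rings
-/

namespace Pool.Agent.U563.BC

open Pool.Agent.U919.GE
open Pool.Agent.U919.GE.DegreeOver (lN lM mul_val Pair)

variable {C : ∀ (G : Type) [Group G], Prop}

theorem BCClass.ext_int (hC : BCClass C) {G : Type} [Group G] (π : G →* Multiplicative ℤ)
    (h : C π.ker) : C G := by
  refine hC.ext _ (Multiplicative ℤ) π
    (hC.solvable _ ⊤ inferInstance inferInstance) (fun F hF => ?_)
  have hF1 : F = ⊥ := by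
    rw [eq_bot_iff]
    intro x hx
    have h1 : IsOfFinOrder (⟨x, hx⟩ : F) := isOfFinOrder_of_finite _
    have h2 : IsOfFinOrder x := MonoidHom.isOfFinOrder F.subtype h1
    rw [Subgroup.mem_bot]
    by_contra hne
    have h3 : (x.toAdd : ℤ) ≠ 0 := fun h0 => hne (Multiplicative.toAdd.injective h0)
    rw [isOfFinOrder_iff_pow_eq_one] at h2
    obtain ⟨n, hn, hn1⟩ := h2
    have h4 := congrArg Multiplicative.toAdd hn1
    rw [toAdd_pow, toAdd_one, nsmul_eq_mul, mul_eq_zero] at h4
    rcases h4 with h4 | h4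
    · have : n = 0 := by exact_mod_cast h4
      omega
    · exact h3 h4
  refine hC.of_le (L := π.ker) ?_ h
  intro g hg
  rw [hF1] at hg
  exact hg

/-- Reduction to finite groups. -/
theorem BCClass.reduce (hC : BCClass C) {R H : Type} [Ring R] [Group H] (ρ : H →* RingAut R)
    (hH : C H) (h : ∀ F : Subgroup H, Finite F → C (SL R F (ρ.comp F.subtype))) :
    C (SL R H ρ) := by
  refine hC.ext _ H SemidirectProduct.rightHom hH (fun F hF => ?_)
  let f : F.comap (SemidirectProduct.rightHom (φ := (mpE R).comp ρ)) →*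
      SL R F (ρ.comp F.subtype) :=
    { toFun := fun x => ⟨(x : SL R H ρ).left, ⟨(x : SL R H ρ).right, x.2⟩⟩
      map_one' := rfl
      map_mul' := fun _ _ => rfl }
  refine hC.sub _ _ f ?_ (h F hF)
  intro x y hxy
  apply Subtype.ext
  refine SemidirectProduct.ext
    (congrArg (fun z : SL R F (ρ.comp F.subtype) => z.left) hxy) ?_
  exact congrArg (fun z : SL R F (ρ.comp F.subtype) => (z.right : H)) hxy

namespace Laurent

variable {R H : Type} [Ring R] [Group H] {lo hi : R → ℤ} {t : Rˣ} {ρ : H →* RingAut R}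

theorem ge_act (e : RingAut R) (he : ∀ s, lo (e s) = lo s) {n : ℤ} {s : R} :
    Ge lo n (e s) ↔ Ge lo n s := by
  unfold Ge
  rw [he, map_eq_zero_iff _ e.injective]

theorem geM_act (e : RingAut R) (he : ∀ s, lo (e s) = lo s) {n : ℤ} {g : G2 R} :
    GeM lo n (mpE R e g) ↔ GeM lo n g := by
  unfold GeM
  refine forall_congr' fun i => forall_congr' fun k => ?_
  rw [mpE_val, ge_act e he]

theorem vm_act (h : Laurent R lo hi t) (e : RingAut R) (he : ∀ s, lo (e s) = lo s) (g : G2 R) :
    h.vm (mpE R e g) = h.vm g := by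
  apply le_antisymm
  · rw [h.le_vm, ← geM_act e he]
    exact h.le_vm.1 le_rfl
  · rw [h.le_vm, geM_act e he]
    exact h.le_vm.1 le_rfl

theorem chi_act (h : Laurent R lo hi t) (e : RingAut R) (he : ∀ s, lo (e s) = lo s) (g : G2 R) :
    h.chi (mpE R e g) = h.chi g := by
  unfold chi
  rw [← map_inv, h.vm_act e he, h.vm_act e he]

theorem AA_act (h : Laurent R lo hi t) (hρ : ∀ (x : H) (s : R), lo (ρ x s) = lo s) (x : H)
    (a : G2 R) : mpE R (ρ x) a ∈ h.AA ↔ a ∈ h.AA := by
  change GeM lo 0 (mpE R (ρ x) a) ∧ GeM lo 0 (mpE R (ρ x) a)⁻¹ ↔ GeM lo 0 a ∧ GeM lo 0 a⁻¹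
  rw [← map_inv, geM_act _ (hρ x), geM_act _ (hρ x)]

theorem BE_act (e : RingAut R) (he : ∀ s, lo (e s) = lo s) {g : G2 R} :
    BE lo (mpE R e g) ↔ BE lo g := by
  unfold BE
  rw [mpE_val, mpE_val, mpE_val, mpE_val, ge_act e he, ge_act e he, ge_act e he, ge_act e he]

theorem BB_act (h : Laurent R lo hi t) (hρ : ∀ (x : H) (s : R), lo (ρ x s) = lo s) (x : H)
    (a : G2 R) : mpE R (ρ x) a ∈ h.BB ↔ a ∈ h.BB := by
  rw [h.mem_BB, h.mem_BB, ← map_inv, BE_act _ (hρ x), BE_act _ (hρ x)]

theorem ker_act (h : Laurent R lo hi t) (hρ : ∀ (x : H) (s : R), lo (ρ x s) = lo s) (x : H)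
    (a : G2 R) : mpE R (ρ x) a ∈ h.chiH.ker ↔ a ∈ h.chiH.ker := by
  rw [h.mem_ker, h.mem_ker, h.chi_act _ (hρ x)]

theorem GE2_S (h : Laurent R lo hi t) : GE2 h.S = ⊤ := by
  rw [eq_top_iff]
  rintro g -
  have h1 : mp h.S.subtype g ∈ h.AA := by
    refine ⟨fun i k => ?_, fun i k => ?_⟩
    · rw [mp_apply]
      exact (g.val i k).2
    · rw [← map_inv, mp_apply]
      exact (g⁻¹.val i k).2
  obtain ⟨g', hg', h2⟩ := h.AA_le h1
  have h3 := mp_inj (f := h.S.subtype) h.S.subtype_injective h2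
  rw [← h3]
  exact hg'

/-- matrices over `S` -/
def toS (h : Laurent R lo hi t) : h.AA →* G2 h.S where
  toFun g := ⟨Matrix.of fun i k => ⟨(g : G2 R).val i k, g.2.1 i k⟩,
    Matrix.of fun i k => ⟨(g : G2 R).inv i k, g.2.2 i k⟩, by
      ext i k
      have := congrArg (fun m : Matrix (Fin 2) (Fin 2) R => m i k) (g : G2 R).val_inv
      simp only [Matrix.mul_apply, Fin.sum_univ_two] at this
      rw [Matrix.mul_apply, Fin.sum_univ_two]
      change (g : G2 R).val i 0 * (g : G2 R).inv 0 k + (g : G2 R).val i 1 * (g : G2 R).inv 1 k = _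
      rw [this]
      by_cases hik : i = k
      · rw [hik, Matrix.one_apply_eq, Matrix.one_apply_eq]
        rfl
      · rw [Matrix.one_apply_ne hik, Matrix.one_apply_ne hik]
        rfl, by
      ext i k
      have := congrArg (fun m : Matrix (Fin 2) (Fin 2) R => m i k) (g : G2 R).inv_val
      simp only [Matrix.mul_apply, Fin.sum_univ_two] at this
      rw [Matrix.mul_apply, Fin.sum_univ_two]
      change (g : G2 R).inv i 0 * (g : G2 R).val 0 k + (g : G2 R).inv i 1 * (g : G2 R).val 1 k = _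
      rw [this]
      by_cases hik : i = k
      · rw [hik, Matrix.one_apply_eq, Matrix.one_apply_eq]
        rfl
      · rw [Matrix.one_apply_ne hik, Matrix.one_apply_ne hik]
        rfl⟩
  map_one' := by
    apply Units.ext
    ext i k
    change (1 : Matrix (Fin 2) (Fin 2) R) i k = (((1 : Matrix (Fin 2) (Fin 2) h.S) i k : h.S) : R)
    by_cases hik : i = k
    · rw [hik, Matrix.one_apply_eq, Matrix.one_apply_eq]
      rfl
    · rw [Matrix.one_apply_ne hik, Matrix.one_apply_ne hik]
      rfl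
  map_mul' := by
    intro g g'
    apply Units.ext
    ext i k
    rw [mul_val]
    exact mul_val (g : G2 R) (g' : G2 R) i k

theorem toS_inj (h : Laurent R lo hi t) : Function.Injective h.toS := by
  intro g g' hgg
  apply Subtype.ext
  apply Units.ext
  ext i k
  exact congrArg (fun x : G2 h.S => ((x.val i k : h.S) : R)) hgg

/-- the action on `S` -/
def rS (h : Laurent R lo hi t) (hρ : ∀ (x : H) (s : R), lo (ρ x s) = lo s) :
    H →* RingAut h.S where
  toFun x :=
    { toFun := fun s => ⟨ρ x s, (ge_act _ (hρ x)).2 s.2⟩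
      invFun := fun s => ⟨ρ x⁻¹ s, (ge_act _ (hρ x⁻¹)).2 s.2⟩
      left_inv := fun s => Subtype.ext (by
        change (ρ x⁻¹ * ρ x) (s : R) = s
        rw [← map_mul, inv_mul_cancel, map_one]
        rfl)
      right_inv := fun s => Subtype.ext (by
        change (ρ x * ρ x⁻¹) (s : R) = s
        rw [← map_mul, mul_inv_cancel, map_one]
        rfl)
      map_mul' := fun a b => Subtype.ext (map_mul (ρ x) (a : R) (b : R))
      map_add' := fun a b => Subtype.ext (map_add (ρ x) (a : R) (b : R)) }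
  map_one' := by
    ext s
    change ρ 1 (s : R) = s
    rw [map_one]
    rfl
  map_mul' x y := by
    ext s
    change ρ (x * y) (s : R) = (ρ x * ρ y) (s : R)
    rw [map_mul]

/-- the embedding -/
def preS (h : Laurent R lo hi t) (hρ : ∀ (x : H) (s : R), lo (ρ x s) = lo s) :
    pre ρ h.AA (h.AA_act hρ) →* SL h.S H (h.rS hρ) where
  toFun x := ⟨h.toS ⟨(x : SL R H ρ).left, x.2⟩, (x : SL R H ρ).right⟩
  map_one' := by
    refine SemidirectProduct.ext ?_ rfl
    exact map_one h.toS
  map_mul' := by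
    intro x y
    refine SemidirectProduct.ext ?_ rfl
    have h1 : (⟨((x * y : pre ρ h.AA (h.AA_act hρ)) : SL R H ρ).left, (x * y).2⟩ : h.AA) =
        ⟨(x : SL R H ρ).left, x.2⟩ * ⟨mpE R (ρ (x : SL R H ρ).right) (y : SL R H ρ).left,
          (h.AA_act hρ _ _).2 y.2⟩ := rfl
    rw [SemidirectProduct.mul_left]
    dsimp only
    rw [h1, map_mul]
    congr 1

theorem preS_inj (h : Laurent R lo hi t) (hρ : ∀ (x : H) (s : R), lo (ρ x s) = lo s) :
    Function.Injective (h.preS hρ) := by
  intro x y hxy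
  apply Subtype.ext
  refine SemidirectProduct.ext ?_ (congrArg (fun z : SL h.S H (h.rS hρ) => z.right) hxy)
  have h1 := h.toS_inj (congrArg (fun z : SL h.S H (h.rS hρ) => z.left) hxy)
  exact congrArg Subtype.val h1

end Laurent

end Pool.Agent.U563.BC
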