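import Mathlib
import Pool.Agent.U563.BC.SC

/-!
# Semilinear groups over skew Laurent polynomial rings, continued
-/

namespace Pool.Agent.U563.BC

open Pool.Agent.U919.GE
open Pool.Agent.U919.GE.DegreeOver (lN lM mul_val Pair)

variable {C : ∀ (G : Type) [Group G], Prop}

namespace Laurent

variable {R H : Type} [Ring R] [Group H] {lo hi : R → ℤ} {t : Rˣ} {ρ : H →* RingAut R}

theorem C_preAA (h : Laurent R lo hi t) (hC : BCClass2 C)
    (hρ : ∀ (x : H) (s : R), lo (ρ x s) = lo s) (hρ' : ∀ (x : H) (s : R), hi (ρ x s) = hi s)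
    [Finite H] : C (pre ρ h.AA (h.AA_act hρ)) := by
  refine hC.sub _ _ (h.preS hρ) (h.preS_inj hρ) ?_
  letI : Field h.S0 := h.isField.toField
  refine hC.deg_finite (K := h.S0) h.deg ?_ h.GE2_S
  intro x s
  have h0 : (h.rS hρ x s = 0) ↔ s = 0 := map_eq_zero_iff _ (h.rS hρ x).injective
  unfold dd
  by_cases hs : s = 0
  · rw [if_pos hs, if_pos (h0.2 hs)]
  · rw [if_neg hs, if_neg (fun h1 => hs (h0.1 h1))]
    change (hi (ρ x (s : R))).toNat = _
    rw [hρ']

theorem del_act (h : Laurent R lo hi t) (hρ : ∀ (x : H) (s : R), lo (ρ x s) = lo s) (x : H) :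
    (del t)⁻¹ * mpE R (ρ x) (del t) ∈ h.AA := by
  obtain ⟨u, hu⟩ : ∃ u : Rˣ, (u : R) = ρ x (t : R) := by
    refine ⟨Units.map (ρ x : R →* R) t, ?_⟩
    rfl
  have e1 : mpE R (ρ x) (del t) = dgl 1 u := by
    apply Units.ext
    ext i k
    rw [mpE_val]
    fin_cases i <;> fin_cases k
    · exact map_one (ρ x)
    · exact map_zero (ρ x)
    · exact map_zero (ρ x)
    · exact hu.symm
  have e2 : ((del t : G2 R))⁻¹ = dgl 1 t⁻¹ := by
    rw [del, dgl_inv, inv_one]
  rw [e1, e2, dgl_mul]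
  apply h.EE_le
  apply h.dgl_EE
  · rw [one_mul, Units.val_one, h.lo_one]
  · rw [Units.val_mul, h.lo_mul _ _ (h.unit_ne _) (h.unit_ne _), h.lo_inv, hu, hρ]
    omega

theorem C_preBB (h : Laurent R lo hi t) (hC : BCClass2 C)
    (hρ : ∀ (x : H) (s : R), lo (ρ x s) = lo s) (hρ' : ∀ (x : H) (s : R), hi (ρ x s) = hi s)
    [Finite H] : C (pre ρ h.BB (h.BB_act hρ)) := by
  let δ : SL R H ρ := SemidirectProduct.inl (del t)
  refine hC.of_map (H := SL R H ρ) (L := pre ρ h.AA (h.AA_act hρ))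
    ((MulAut.conj δ⁻¹).toMonoidHom.comp (pre ρ h.BB (h.BB_act hρ)).subtype) ?_ ?_
    (h.C_preAA hC hρ hρ')
  · intro x y hxy
    exact Subtype.ext ((MulAut.conj δ⁻¹).injective hxy)
  · intro x
    have e : ((MulAut.conj δ⁻¹).toMonoidHom.comp (pre ρ h.BB (h.BB_act hρ)).subtype) x =
        δ⁻¹ * (x : SL R H ρ) * δ := by
      rw [MonoidHom.comp_apply]
      change δ⁻¹ * (x : SL R H ρ) * δ⁻¹⁻¹ = _
      rw [inv_inv]
    have e1 : δ⁻¹ = SemidirectProduct.inl (del t)⁻¹ := (map_inv _ _).symm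
    rw [e, mem_pre, SemidirectProduct.mul_left, e1, SemidirectProduct.mul_left]
    have e2 : (SemidirectProduct.inl (del t)⁻¹ : SL R H ρ).right = 1 := rfl
    have e3 : (SemidirectProduct.inl (del t)⁻¹ * (x : SL R H ρ)).right = (x : SL R H ρ).right := by
      rw [SemidirectProduct.mul_right, e2, one_mul]
    rw [e2, e3, map_one, SemidirectProduct.left_inl]
    have h1 := (h.mem_BB_iff _).1 x.2
    have h2 := mul_mem h1 (h.del_act hρ (x : SL R H ρ).right)
    have e4 : (del t)⁻¹ * (x : SL R H ρ).left * del t * ((del t)⁻¹ *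
        mpE R (ρ (x : SL R H ρ).right) (del t)) =
        (del t)⁻¹ * (x : SL R H ρ).left * mpE R (ρ (x : SL R H ρ).right) (del t) := by
      group
    rw [e4] at h2
    exact h2

/-- the kernel -/
noncomputable def Kp (h : Laurent R lo hi t) (hρ : ∀ (x : H) (s : R), lo (ρ x s) = lo s) :
    Subgroup (SL R H ρ) := pre ρ h.chiH.ker (h.ker_act hρ)

/-- the left component -/
noncomputable def pk (h : Laurent R lo hi t) (hρ : ∀ (x : H) (s : R), lo (ρ x s) = lo s)
    (x : h.Kp hρ) : h.Ker := ⟨(x : SL R H ρ).left, x.2⟩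

theorem lvl' (h : Laurent R lo hi t) (hρ : ∀ (x : H) (s : R), lo (ρ x s) = lo s) :
    Lvl ((pre ρ h.AA (h.AA_act hρ)).subgroupOf (h.Kp hρ))
      ((pre ρ h.BB (h.BB_act hρ)).subgroupOf (h.Kp hρ))
      (fun x => (- h.vm (h.pk hρ x : G2 R)).toNat)
      (fun x => (- h.vm ((h.pk hρ x : G2 R) * del t)).toNat) := by
  refine Lvl.pull h.lvl (h.pk hρ) _ _ ?_ ?_ ?_
  · intro y
    rw [Subgroup.mem_subgroupOf, Subgroup.mem_subgroupOf]
    exact Iff.rfl
  · intro y
    rw [Subgroup.mem_subgroupOf, Subgroup.mem_subgroupOf]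
    exact Iff.rfl
  · intro x
    refine ⟨fun y => ⟨mpE R (ρ (x : SL R H ρ).right) (y : G2 R), (h.ker_act hρ _ _).2 y.2⟩,
      ?_, ?_, ?_⟩
    · intro y
      apply Subtype.ext
      exact SemidirectProduct.mul_left _ _
    · intro a
      rw [Subgroup.mem_subgroupOf, Subgroup.mem_subgroupOf]
      exact h.AA_act hρ _ _
    · intro b
      rw [Subgroup.mem_subgroupOf, Subgroup.mem_subgroupOf]
      exact h.BB_act hρ _ _

/-- the inclusion of the kernel -/
noncomputable def inK (h : Laurent R lo hi t) (hρ : ∀ (x : H) (s : R), lo (ρ x s) = lo s) :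
    h.Ker →* h.Kp hρ where
  toFun g := ⟨SemidirectProduct.inl (g : G2 R), g.2⟩
  map_one' := Subtype.ext (map_one _)
  map_mul' _ _ := Subtype.ext (map_mul _ _ _)

theorem C_Kp (h : Laurent R lo hi t) (hC : BCClass2 C)
    (hρ : ∀ (x : H) (s : R), lo (ρ x s) = lo s) (hρ' : ∀ (x : H) (s : R), hi (ρ x s) = hi s)
    [Finite H] : C (h.Kp hρ) := by
  have h1 := hC.tree_mem (h.lvl' hρ)
    (hC.of_map (H := SL R H ρ) (L := pre ρ h.AA (h.AA_act hρ))
      ((h.Kp hρ).subtype.comp (Subgroup.subtype _))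
      (fun x y hxy => Subtype.ext (Subtype.ext hxy)) (fun x => x.2) (h.C_preAA hC hρ hρ'))
    (hC.of_map (H := SL R H ρ) (L := pre ρ h.BB (h.BB_act hρ))
      ((h.Kp hρ).subtype.comp (Subgroup.subtype _))
      (fun x y hxy => Subtype.ext (Subtype.ext hxy)) (fun x => x.2) (h.C_preBB hC hρ hρ'))
  refine hC.of_top ?_ h1
  rw [eq_top_iff]
  rintro x -
  have hle : (⊤ : Subgroup h.Ker) ≤ ((pre ρ h.AA (h.AA_act hρ)).subgroupOf (h.Kp hρ) ⊔
      (pre ρ h.BB (h.BB_act hρ)).subgroupOf (h.Kp hρ)).comap (h.inK hρ) := by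
    have h2 : (⊤ : Subgroup h.Ker) = h.AA.subgroupOf h.chiH.ker ⊔ h.BB.subgroupOf h.chiH.ker := by
      rw [← Subgroup.subgroupOf_sup h.AA_ker h.BB_ker]
      exact (Subgroup.subgroupOf_eq_top.2 h.ker_le).symm
    rw [h2]
    refine sup_le (fun a ha => ?_) (fun b hb => ?_)
    · refine Subgroup.mem_sup_left ?_
      rw [Subgroup.mem_subgroupOf] at ha ⊢
      exact ha
    · refine Subgroup.mem_sup_right ?_
      rw [Subgroup.mem_subgroupOf] at hb ⊢
      exact hb
  have h3 : h.inK hρ (h.pk hρ x) ∈ (pre ρ h.AA (h.AA_act hρ)).subgroupOf (h.Kp hρ) ⊔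
      (pre ρ h.BB (h.BB_act hρ)).subgroupOf (h.Kp hρ) := hle (Subgroup.mem_top (h.pk hρ x))
  have h6 : (SemidirectProduct.inr (x : SL R H ρ).right : SL R H ρ) ∈ h.Kp hρ := by
    change (SemidirectProduct.inr (x : SL R H ρ).right : SL R H ρ).left ∈ h.chiH.ker
    rw [SemidirectProduct.left_inr]
    exact one_mem _
  have h4 : (⟨SemidirectProduct.inr (x : SL R H ρ).right, h6⟩ : h.Kp hρ) ∈
      (pre ρ h.AA (h.AA_act hρ)).subgroupOf (h.Kp hρ) := by
    rw [Subgroup.mem_subgroupOf]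
    change (SemidirectProduct.inr (x : SL R H ρ).right : SL R H ρ).left ∈ h.AA
    rw [SemidirectProduct.left_inr]
    exact one_mem _
  have h4' : (⟨SemidirectProduct.inr (x : SL R H ρ).right, h6⟩ : h.Kp hρ) ∈
      (pre ρ h.AA (h.AA_act hρ)).subgroupOf (h.Kp hρ) ⊔
      (pre ρ h.BB (h.BB_act hρ)).subgroupOf (h.Kp hρ) := Subgroup.mem_sup_left h4
  have h5 := mul_mem h3 h4'
  have e : h.inK hρ (h.pk hρ x) * ⟨SemidirectProduct.inr (x : SL R H ρ).right, h6⟩ = x := by
    apply Subtype.ext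
    exact SemidirectProduct.inl_left_mul_inr_right (x : SL R H ρ)
  rw [e] at h5
  exact h5

/-- the order of the determinant -/
noncomputable def chiP (h : Laurent R lo hi t) (hρ : ∀ (x : H) (s : R), lo (ρ x s) = lo s) :
    SL R H ρ →* Multiplicative ℤ where
  toFun x := h.chiH x.left
  map_one' := map_one h.chiH
  map_mul' x y := by
    rw [SemidirectProduct.mul_left, map_mul]
    congr 1
    exact congrArg Multiplicative.ofAdd (h.chi_act _ (hρ x.right) y.left)

theorem C_finite (h : Laurent R lo hi t) (hC : BCClass2 C)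
    (hρ : ∀ (x : H) (s : R), lo (ρ x s) = lo s) (hρ' : ∀ (x : H) (s : R), hi (ρ x s) = hi s)
    [Finite H] : C (SL R H ρ) := by
  refine hC.ext_int (h.chiP hρ) ?_
  exact hC.of_le (L := h.Kp hρ) (fun x hx => hx) (h.C_Kp hC hρ hρ')

/-- **Semilinear groups over skew Laurent polynomial rings** -/
theorem C_semi (h : Laurent R lo hi t) (hC : BCClass2 C)
    (hρ : ∀ (x : H) (s : R), lo (ρ x s) = lo s) (hρ' : ∀ (x : H) (s : R), hi (ρ x s) = hi s)
    (hH : C H) : C (SL R H ρ) := by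
  refine hC.reduce ρ hH (fun F hF => ?_)
  exact h.C_finite hC (fun x s => hρ _ s) (fun x s => hρ' _ s)

end Laurent

/-- **Semilinear groups over Ore extensions** -/
theorem BCClass2.ore_semi (hC : BCClass2 C) {K S H : Type} [Field K] [Ring S] [Group H]
    {j : K →+* S} {d : S → ℕ} {ρ : H →* RingAut S} (h : Deg j d)
    (hdiv : ∀ a b : S, b ≠ 0 → ∃ q : S, a - b * q = 0 ∨ d (a - b * q) < d b)
    (hρ : ∀ (x : H) (s : S), d (ρ x s) = d s) (hH : C H) : C (SL S H ρ) := by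
  refine hC.reduce ρ hH (fun F hF => ?_)
  exact hC.deg_finite h (fun x s => hρ _ s) (ore_top h hdiv)

end Pool.Agent.U563.BC
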