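import Mathlib
import Pool.Agent.U563.BC.SD
import Pool.Agent.U293.PA.Tree
import Pool.Agent.U293.PA.Solv

/-!
# Semilinear groups of automorphisms of the plane
-/

namespace Pool.Agent.U563.BC

open MvPolynomial
open Pool.Agent.U919.GE (G2 Lvl)
open Pool.Agent.U293.PA

variable {K H : Type} [Field K] [Group H]

/-- the level functions of the plane -/
theorem plane_lvl : Lvl (affG (⊤ : Subfield K)) (triG (⊤ : Subfield K)) mx
    (fun g => dg (g (X 1))) where
  hN := fun g a ha => mx_mul g ha
  hM := fun g b hb => dg_tri g hb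
  uA := by
    intro g a ha h1 h2
    have h3 := low_unique g (a := 1) (a' := a) (one_mem _) ha (by rw [mul_one]; exact h1) h2
    rwa [inv_one, one_mul] at h3
  uB := by
    intro g b hb h1 h2
    by_contra hba
    have h3 := dg_big g hb hba ((le_max_left _ _).trans h1)
    have h4 : dg ((g * b) (X 0)) ≤ mx (g * b) := le_max_left _ _
    exact absurd (h4.trans h2) (not_le.2 h3)
  base := by
    intro a ha
    exact (max_le (aff_dg_le ha 0) (aff_dg_le ha 1)).trans (dg_X_pos a 1)

/-- the action on the coefficients of the polynomials -/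
noncomputable def co (e : RingAut K) : Rg K ≃+* Rg K := MvPolynomial.mapEquiv (Fin 2) e

theorem co_C (e : RingAut K) (a : K) : co e (C a) = C (e a) := by
  simp [co]

theorem co_X (e : RingAut K) (i : Fin 2) : co e (X i) = X i := by
  simp [co]

/-- conjugation with the action on the coefficients -/
noncomputable def cj (e : RingAut K) (g : Au K) : Au K :=
  AlgEquiv.ofRingEquiv (f := ((co e).symm.trans g.toRingEquiv).trans (co e)) (by
    intro a
    change co e (g ((co e).symm (C a))) = C a
    have h1 : (co e).symm (C a) = C (e.symm a) := by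
      rw [RingEquiv.symm_apply_eq, co_C, RingEquiv.apply_symm_apply]
    rw [h1, gC, co_C, RingEquiv.apply_symm_apply])

theorem cj_apply (e : RingAut K) (g : Au K) (P : Rg K) :
    cj e g P = co e (g ((co e).symm P)) := rfl

theorem cj_X (e : RingAut K) (g : Au K) (i : Fin 2) : cj e g (X i) = co e (g (X i)) := by
  rw [cj_apply]
  have h1 : (co e).symm (X i) = X i := by
    rw [RingEquiv.symm_apply_eq, co_X]
  rw [h1]

theorem co_mul (e e' : RingAut K) (P : Rg K) : co (e * e') P = co e (co e' P) := by
  induction P using MvPolynomial.induction_on with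
  | C a => rw [co_C, co_C, co_C]; rfl
  | add p q hp hq => rw [map_add, map_add, map_add, hp, hq]
  | mul_X p i hp => rw [map_mul, map_mul, map_mul, hp, co_X, co_X, co_X]

theorem co_one (P : Rg K) : co (1 : RingAut K) P = P := by
  induction P using MvPolynomial.induction_on with
  | C a => rw [co_C]; rfl
  | add p q hp hq => rw [map_add, hp, hq]
  | mul_X p i hp => rw [map_mul, hp, co_X]

theorem cj_mul (e : RingAut K) (g g' : Au K) : cj e (g * g') = cj e g * cj e g' := by
  apply ext_of
  · rw [AlgEquiv.mul_apply, cj_apply, cj_apply, cj_apply, RingEquiv.symm_apply_apply]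
    rfl
  · rw [AlgEquiv.mul_apply, cj_apply, cj_apply, cj_apply, RingEquiv.symm_apply_apply]
    rfl

theorem cj_cj (e e' : RingAut K) (g : Au K) : cj (e * e') g = cj e (cj e' g) := by
  apply ext_of
  · rw [cj_X, cj_X, cj_X, co_mul]
  · rw [cj_X, cj_X, cj_X, co_mul]

theorem cj_one (g : Au K) : cj (1 : RingAut K) g = g := by
  apply ext_of
  · rw [cj_X, co_one]
  · rw [cj_X, co_one]

/-- the action on the group of automorphisms -/
noncomputable def cjH (K : Type) [Field K] : RingAut K →* MulAut (Au K) where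
  toFun e :=
    { toFun := cj e
      invFun := cj e⁻¹
      left_inv := fun g => by rw [← cj_cj, inv_mul_cancel, cj_one]
      right_inv := fun g => by rw [← cj_cj, mul_inv_cancel, cj_one]
      map_mul' := cj_mul e }
  map_one' := by
    ext1 g
    exact cj_one g
  map_mul' e e' := by
    ext1 g
    exact cj_cj e e' g

theorem dg_co (e : RingAut K) (P : Rg K) : dg (co e P) = dg P := by
  have h1 : ∀ (e : RingAut K) (P : Rg K), dg (co e P) ≤ dg P := by
    intro e P
    have e1 : co e P = MvPolynomial.map (e : K →+* K) P := rfl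
    rw [e1]
    exact Finset.sup_mono (MvPolynomial.support_map_subset _ _)
  refine le_antisymm (h1 e P) ?_
  have h2 := h1 e⁻¹ (co e P)
  rwa [← co_mul, inv_mul_cancel, co_one] at h2

theorem co_aeval (e : RingAut K) (p : Polynomial K) : co e (Polynomial.aeval (X 1 : Rg K) p) =
    Polynomial.aeval (X 1 : Rg K) (p.map (e : K →+* K)) := by
  rw [Polynomial.aeval_def, Polynomial.aeval_def, Polynomial.eval₂_map]
  have h1 := Polynomial.hom_eval₂ p (algebraMap K (Rg K)) (co e : Rg K →+* Rg K) (X 1)
  change (co e : Rg K →+* Rg K) _ = _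
  rw [h1]
  have h2 : (co e : Rg K →+* Rg K) (X 1) = X 1 := co_X e 1
  rw [h2]
  congr 1
  ext1 a
  exact co_C e a

theorem cj_aff (e : RingAut K) (g : Au K) : cj e g ∈ affG (⊤ : Subfield K) ↔
    g ∈ affG (⊤ : Subfield K) := by
  have h1 : ∀ (e : RingAut K) (g : Au K), g ∈ affG (⊤ : Subfield K) →
      cj e g ∈ affG (⊤ : Subfield K) := by
    intro e g hg
    obtain ⟨a, b, c, d, u, v, h0, h1⟩ := aff_top.1 hg
    refine aff_top.2 ⟨e a, e b, e c, e d, e u, e v, ?_, ?_⟩
    · rw [cj_X, h0, map_add, map_add, map_mul, map_mul, co_C, co_C, co_C, co_X, co_X]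
    · rw [cj_X, h1, map_add, map_add, map_mul, map_mul, co_C, co_C, co_C, co_X, co_X]
  refine ⟨fun h => ?_, h1 e g⟩
  have h2 := h1 e⁻¹ _ h
  rwa [← cj_cj, inv_mul_cancel, cj_one] at h2

theorem cj_tri (e : RingAut K) (g : Au K) : cj e g ∈ triG (⊤ : Subfield K) ↔
    g ∈ triG (⊤ : Subfield K) := by
  have h1 : ∀ (e : RingAut K) (g : Au K), g ∈ triG (⊤ : Subfield K) →
      cj e g ∈ triG (⊤ : Subfield K) := by
    intro e g hg
    obtain ⟨a, b, c, p, h0, h1⟩ := tri_top.1 hg
    refine tri_top.2 ⟨e a, e b, e c, p.map (e : K →+* K), ?_, ?_⟩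
    · rw [cj_X, h0, map_add, map_mul, co_C, co_X, co_aeval]
    · rw [cj_X, h1, map_add, map_mul, co_C, co_C, co_X]
  refine ⟨fun h => ?_, h1 e g⟩
  have h2 := h1 e⁻¹ _ h
  rwa [← cj_cj, inv_mul_cancel, cj_one] at h2

end Pool.Agent.U563.BC
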