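import Mathlib
import Pool.Agent.U563.BC.PA

/-!
# Semilinear groups of automorphisms of the plane, continued
-/

namespace Pool.Agent.U563.BC

open MvPolynomial
open Pool.Agent.U919.GE (G2 Lvl)
open Pool.Agent.U293.PA

variable {Cl : ∀ (G : Type) [Group G], Prop}

section gen

variable {Γ H : Type} [Group Γ] [Group H] {φ : H →* MulAut Γ}

/-- the elements with left component in `A` -/
def gpre (φ : H →* MulAut Γ) (A : Subgroup Γ) (hA : ∀ (x : H) (a : Γ), φ x a ∈ A ↔ a ∈ A) :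
    Subgroup (Γ ⋊[φ] H) where
  carrier := {x | x.left ∈ A}
  one_mem' := one_mem A
  mul_mem' := by
    intro x y hx hy
    exact mul_mem hx ((hA _ _).2 hy)
  inv_mem' := by
    intro x hx
    change (x⁻¹).left ∈ A
    rw [SemidirectProduct.inv_left]
    exact (hA _ _).2 (inv_mem hx)

theorem mem_gpre {A : Subgroup Γ} {hA : ∀ (x : H) (a : Γ), φ x a ∈ A ↔ a ∈ A}
    {x : Γ ⋊[φ] H} : x ∈ gpre φ A hA ↔ x.left ∈ A := Iff.rfl

theorem BCClass.gpre_solvable (hC : BCClass Cl) [Finite H] {A : Subgroup Γ}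
    (hA : ∀ (x : H) (a : Γ), φ x a ∈ A ↔ a ∈ A) (hs : Group.IsSolvable A) :
    Cl (gpre φ A hA) := by
  let N : Subgroup (gpre φ A hA) := (SemidirectProduct.rightHom.comp (gpre φ A hA).subtype).ker
  have hN : N.FiniteIndex := inferInstance
  let f : N →* A :=
    { toFun := fun x => ⟨((x : gpre φ A hA) : Γ ⋊[φ] H).left, (x : gpre φ A hA).2⟩
      map_one' := rfl
      map_mul' := by
        intro x y
        apply Subtype.ext
        have h1 : ((x : gpre φ A hA) : Γ ⋊[φ] H).right = 1 := x.2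
        change (((x : gpre φ A hA) : Γ ⋊[φ] H) * ((y : gpre φ A hA) : Γ ⋊[φ] H)).left = _
        rw [SemidirectProduct.mul_left, h1, map_one]
        rfl }
  have hf : Function.Injective f := by
    intro x y hxy
    apply Subtype.ext
    apply Subtype.ext
    have h1 : ((x : gpre φ A hA) : Γ ⋊[φ] H).right = 1 := x.2
    have h2 : ((y : gpre φ A hA) : Γ ⋊[φ] H).right = 1 := y.2
    exact SemidirectProduct.ext (congrArg (fun z : A => (z : Γ)) hxy) (h1.trans h2.symm)
  exact hC.solvable _ N hN (Group.isSolvable_of_isSolvable_injective hf)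

/-- Two subgroups with level functions and a finite group acting. -/
theorem BCClass.gpre_tree (hC : BCClass Cl) {A B : Subgroup Γ} {N M : Γ → ℕ} (h : Lvl A B N M)
    (hA : ∀ (x : H) (a : Γ), φ x a ∈ A ↔ a ∈ A) (hB : ∀ (x : H) (a : Γ), φ x a ∈ B ↔ a ∈ B)
    (cA : Cl (gpre φ A hA)) (cB : Cl (gpre φ B hB)) : Cl ↥(gpre φ A hA ⊔ gpre φ B hB) :=
  hC.tree_mem (Lvl.pull h (fun x : Γ ⋊[φ] H => x.left) (gpre φ A hA) (gpre φ B hB)
    (fun _ => Iff.rfl) (fun _ => Iff.rfl) (fun x => ⟨φ x.right,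
      fun y => SemidirectProduct.mul_left _ _, hA _, hB _⟩)) cA cB

end gen

section lin

variable {K H : Type} [Field K] [Group H]

theorem coe0 (a b e : K) :
    (C a * X 0 + C b * X 1 + C e : Rg K).coeff (Finsupp.single 0 1) = a := by
  have h1 : (Finsupp.single (1 : Fin 2) 1 : Fin 2 →₀ ℕ) ≠ Finsupp.single 0 1 := by
    intro h
    have := DFunLike.congr_fun h 1
    simp at this
  have h2 : (0 : Fin 2 →₀ ℕ) ≠ Finsupp.single 0 1 := by
    intro h
    have := DFunLike.congr_fun h 0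
    simp at this
  rw [coeff_add, coeff_add, coeff_C_mul, coeff_C_mul, coeff_X', coeff_X', coeff_C, if_pos rfl,
    if_neg h1, if_neg h2]
  ring

theorem coe1 (a b e : K) :
    (C a * X 0 + C b * X 1 + C e : Rg K).coeff (Finsupp.single 1 1) = b := by
  have h1 : (Finsupp.single (0 : Fin 2) 1 : Fin 2 →₀ ℕ) ≠ Finsupp.single 1 1 := by
    intro h
    have := DFunLike.congr_fun h 0
    simp at this
  have h2 : (0 : Fin 2 →₀ ℕ) ≠ Finsupp.single 1 1 := by
    intro h
    have := DFunLike.congr_fun h 1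
    simp at this
  rw [coeff_add, coeff_add, coeff_C_mul, coeff_C_mul, coeff_X', coeff_X', coeff_C, if_neg h1,
    if_pos rfl, if_neg h2]
  ring

/-- the linear part -/
noncomputable def Lm (g : Au K) : Matrix (Fin 2) (Fin 2) K :=
  !![(g (X 0)).coeff (Finsupp.single 0 1), (g (X 1)).coeff (Finsupp.single 0 1);
    (g (X 0)).coeff (Finsupp.single 1 1), (g (X 1)).coeff (Finsupp.single 1 1)]

theorem Lm_eq {g : Au K} {a b c d u v : K} (h0 : g (X 0) = C a * X 0 + C b * X 1 + C u)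
    (h1 : g (X 1) = C c * X 0 + C d * X 1 + C v) : Lm g = !![a, c; b, d] := by
  unfold Lm
  rw [h0, h1, coe0, coe1, coe0, coe1]

theorem Lm_mul {g h : Au K} (hg : g ∈ affG (⊤ : Subfield K)) (hh : h ∈ affG (⊤ : Subfield K)) :
    Lm (g * h) = Lm g * Lm h := by
  obtain ⟨a, b, c, d, u, v, g0, g1⟩ := aff_top.1 hg
  obtain ⟨a', b', c', d', u', v', h0, h1⟩ := aff_top.1 hh
  have e0 : (g * h) (X 0) = C (a' * a + b' * c) * X 0 + C (a' * b + b' * d) * X 1 +
      C (a' * u + b' * v + u') := by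
    rw [AlgEquiv.mul_apply, h0, map_add, map_add, map_mul, map_mul, gC, gC, gC, g0, g1]
    simp only [C_add, C_mul]
    ring
  have e1 : (g * h) (X 1) = C (c' * a + d' * c) * X 0 + C (c' * b + d' * d) * X 1 +
      C (c' * u + d' * v + v') := by
    rw [AlgEquiv.mul_apply, h1, map_add, map_add, map_mul, map_mul, gC, gC, gC, g0, g1]
    simp only [C_add, C_mul]
    ring
  rw [Lm_eq e0 e1, Lm_eq g0 g1, Lm_eq h0 h1]
  ext i k
  rw [Matrix.mul_apply, Fin.sum_univ_two]
  fin_cases i <;> fin_cases k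
  · show a' * a + b' * c = a * a' + c * b'
    ring
  · show c' * a + d' * c = a * c' + c * d'
    ring
  · show a' * b + b' * d = b * a' + d * b'
    ring
  · show c' * b + d' * d = b * c' + d * d'
    ring

theorem Lm_one : Lm (1 : Au K) = 1 := by
  have e0 : (1 : Au K) (X 0) = C 1 * X 0 + C 0 * X 1 + C 0 := by simp
  have e1 : (1 : Au K) (X 1) = C 0 * X 0 + C 1 * X 1 + C 0 := by simp
  rw [Lm_eq e0 e1, Matrix.one_fin_two]

/-- the linear part as a homomorphism -/
noncomputable def Lh : affG (⊤ : Subfield K) →* G2 K where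
  toFun g := ⟨Lm (g : Au K), Lm ((g⁻¹ : affG (⊤ : Subfield K)) : Au K),
    by rw [← Lm_mul g.2 (g⁻¹).2, ← Subgroup.coe_mul, mul_inv_cancel]; exact Lm_one,
    by rw [← Lm_mul (g⁻¹).2 g.2, ← Subgroup.coe_mul, inv_mul_cancel]; exact Lm_one⟩
  map_one' := Units.ext Lm_one
  map_mul' g h := Units.ext (Lm_mul g.2 h.2)

theorem Lm_cj (e : RingAut K) {g : Au K} (hg : g ∈ affG (⊤ : Subfield K)) (i k : Fin 2) :
    Lm (cj e g) i k = e (Lm g i k) := by
  obtain ⟨a, b, c, d, u, v, h0, h1⟩ := aff_top.1 hg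
  have e0 : cj e g (X 0) = C (e a) * X 0 + C (e b) * X 1 + C (e u) := by
    rw [cj_X, h0, map_add, map_add, map_mul, map_mul, co_C, co_C, co_C, co_X, co_X]
  have e1 : cj e g (X 1) = C (e c) * X 0 + C (e d) * X 1 + C (e v) := by
    rw [cj_X, h1, map_add, map_add, map_mul, map_mul, co_C, co_C, co_C, co_X, co_X]
  rw [Lm_eq e0 e1, Lm_eq h0 h1]
  fin_cases i <;> fin_cases k <;> rfl

/-- affine automorphisms with trivial linear part commute -/
theorem Lm_comm {g h : Au K} (hg : g ∈ affG (⊤ : Subfield K)) (hh : h ∈ affG (⊤ : Subfield K))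
    (h1 : Lm g = 1) (h2 : Lm h = 1) : g * h = h * g := by
  have key : ∀ g : Au K, g ∈ affG (⊤ : Subfield K) → Lm g = 1 → ∃ u v : K,
      g (X 0) = X 0 + C u ∧ g (X 1) = X 1 + C v := by
    intro g hg hL
    obtain ⟨a, b, c, d, u, v, g0, g1⟩ := aff_top.1 hg
    rw [Lm_eq g0 g1, Matrix.one_fin_two] at hL
    have a1 := congrArg (fun m : Matrix (Fin 2) (Fin 2) K => m 0 0) hL
    have a2 := congrArg (fun m : Matrix (Fin 2) (Fin 2) K => m 0 1) hL
    have a3 := congrArg (fun m : Matrix (Fin 2) (Fin 2) K => m 1 0) hL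
    have a4 := congrArg (fun m : Matrix (Fin 2) (Fin 2) K => m 1 1) hL
    simp at a1 a2 a3 a4
    refine ⟨u, v, ?_, ?_⟩
    · rw [g0, a1, a3]
      simp
    · rw [g1, a2, a4]
      simp
  obtain ⟨u, v, g0, g1⟩ := key g hg h1
  obtain ⟨u', v', h0, h1'⟩ := key h hh h2
  apply ext_of
  · rw [AlgEquiv.mul_apply, AlgEquiv.mul_apply, h0, g0, map_add, map_add, gC, gC, g0, h0]
    ring
  · rw [AlgEquiv.mul_apply, AlgEquiv.mul_apply, h1', g1, map_add, map_add, gC, gC, g1, h1']
    ring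

end lin

end Pool.Agent.U563.BC
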