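import Mathlib
import Pool.Agent.U563.BC.PB

/-!
# Semilinear groups of automorphisms of the plane: the main theorem
-/

namespace Pool.Agent.U563.BC

open Pool.Agent.U919.GE (G2 Lvl GE2_div_top)
open Pool.Agent.U293.PA

variable {Cl : ∀ (G : Type) [Group G], Prop} {K H : Type} [Field K] [Group H]

/-- The group generated by the affine and the triangular automorphisms of `K[x, y]`. -/
noncomputable def TT (K : Type) [Field K] : Subgroup (Au K) := affG (⊤ : Subfield K) ⊔ triG (⊤ : Subfield K)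

theorem cj_TT (e : RingAut K) (g : Au K) : cj e g ∈ TT K ↔ g ∈ TT K := by
  have h1 : ∀ e : RingAut K, TT K ≤ (TT K).comap (cjH K e).toMonoidHom := by
    intro e
    refine sup_le (fun a ha => ?_) (fun b hb => ?_)
    · exact Subgroup.mem_sup_left ((cj_aff e a).2 ha)
    · exact Subgroup.mem_sup_right ((cj_tri e b).2 hb)
  refine ⟨fun h => ?_, fun h => h1 e h⟩
  have h2 : cj e⁻¹ (cj e g) ∈ TT K := h1 e⁻¹ h
  rwa [← cj_cj, inv_mul_cancel, cj_one] at h2

/-- the action on the automorphisms of the plane -/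
noncomputable abbrev ph (ρ : H →* RingAut K) : H →* MulAut (Au K) := (cjH K).comp ρ

/-- The semilinear automorphisms of the plane: pairs of an element of `TT K` and an element of
`H`, which acts on the coefficients by `ρ`. -/
noncomputable def planeSemi (ρ : H →* RingAut K) : Subgroup (Au K ⋊[ph ρ] H) :=
  gpre (ph ρ) (TT K) (fun x a => cj_TT (ρ x) a)

theorem mpE_Lh (e : RingAut K) {g : Au K} (hg : g ∈ affG (⊤ : Subfield K)) :
    Lh ⟨cj e g, (cj_aff e g).2 hg⟩ = mpE K e (Lh ⟨g, hg⟩) := by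
  apply Units.ext
  ext i k
  exact Lm_cj e hg i k

/-- the linear part -/
noncomputable def Lsemi (ρ : H →* RingAut K) :
    gpre (ph ρ) (affG (⊤ : Subfield K)) (fun x a => cj_aff (ρ x) a) →* SL K H ρ where
  toFun x := ⟨Lh ⟨(x : Au K ⋊[ph ρ] H).left, x.2⟩, (x : Au K ⋊[ph ρ] H).right⟩
  map_one' := by
    refine SemidirectProduct.ext ?_ rfl
    exact map_one Lh
  map_mul' := by
    intro x y
    refine SemidirectProduct.ext ?_ rfl
    rw [SemidirectProduct.mul_left]
    change Lh _ = Lh _ * mpE K (ρ (x : Au K ⋊[ph ρ] H).right) (Lh _)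
    rw [← mpE_Lh, ← map_mul]
    rfl

theorem deg_id (K : Type) [Field K] : Deg (RingHom.id K) (fun _ => 0) where
  nontrivial := one_ne_zero
  inj := fun _ _ h => h
  mul_ne := fun _ _ ha hb => mul_ne_zero ha hb
  mul := fun _ _ _ _ => rfl
  add := fun _ _ => le_rfl
  zero_iff := fun s => ⟨fun _ => ⟨s, rfl⟩, fun _ => rfl⟩

theorem BCClass2.aff_finite (hC : BCClass2 Cl) (ρ : H →* RingAut K) [Finite H] :
    Cl (gpre (ph ρ) (affG (⊤ : Subfield K)) (fun x a => cj_aff (ρ x) a)) := by
  have h1 : Cl (SL K H ρ) := hC.deg_finite (deg_id K) (fun _ _ => rfl) (GE2_div_top K)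
  refine hC.comm_ext (Lsemi ρ) ?_ h1
  intro x y hx hy
  have rx : (x : Au K ⋊[ph ρ] H).right = 1 := congrArg (fun z : SL K H ρ => z.right) hx
  have ry : (y : Au K ⋊[ph ρ] H).right = 1 := congrArg (fun z : SL K H ρ => z.right) hy
  have lx : Lm (x : Au K ⋊[ph ρ] H).left = 1 :=
    congrArg (fun z : SL K H ρ => z.left.val) hx
  have ly : Lm (y : Au K ⋊[ph ρ] H).left = 1 :=
    congrArg (fun z : SL K H ρ => z.left.val) hy
  apply Subtype.ext
  rw [Subgroup.coe_mul, Subgroup.coe_mul]
  refine SemidirectProduct.ext ?_ ?_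
  · rw [SemidirectProduct.mul_left, SemidirectProduct.mul_left, rx, ry, map_one]
    exact Lm_comm x.2 y.2 lx ly
  · rw [SemidirectProduct.mul_right, SemidirectProduct.mul_right, rx, ry]

theorem BCClass2.plane_finite (hC : BCClass2 Cl) (ρ : H →* RingAut K) [Finite H] :
    Cl (planeSemi ρ) := by
  have h1 := hC.gpre_tree plane_lvl (fun x a => cj_aff (ρ x) a) (fun x a => cj_tri (ρ x) a)
    (hC.aff_finite ρ) (hC.gpre_solvable (φ := ph ρ) (fun x a => cj_tri (ρ x) a) tri_solvable)
  refine hC.of_le ?_ h1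
  intro x hx
  have e : x = SemidirectProduct.inl x.left * SemidirectProduct.inr x.right :=
    (SemidirectProduct.inl_left_mul_inr_right x).symm
  rw [e]
  refine mul_mem ?_ (Subgroup.mem_sup_left (mem_gpre.2 ?_))
  · have h2 : TT K ≤ (gpre (ph ρ) (affG (⊤ : Subfield K)) (fun x a => cj_aff (ρ x) a) ⊔
        gpre (ph ρ) (triG (⊤ : Subfield K)) (fun x a => cj_tri (ρ x) a)).comap
        SemidirectProduct.inl := by
      refine sup_le (fun a ha => ?_) (fun b hb => ?_)
      · exact Subgroup.mem_sup_left (mem_gpre.2 ha)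
      · exact Subgroup.mem_sup_right (mem_gpre.2 hb)
    exact h2 hx
  · rw [SemidirectProduct.left_inr]
    exact one_mem _

/-- **Semilinear automorphisms of the plane.** -/
theorem BCClass2.plane (hC : BCClass2 Cl) (ρ : H →* RingAut K) (hH : Cl H) :
    Cl (planeSemi ρ) := by
  refine hC.ext _ H (SemidirectProduct.rightHom.comp (planeSemi ρ).subtype) hH (fun F hF => ?_)
  let f : F.comap (SemidirectProduct.rightHom.comp (planeSemi ρ).subtype) →*
      planeSemi (ρ.comp F.subtype) :=
    { toFun := fun x => ⟨⟨((x : planeSemi ρ) : Au K ⋊[ph ρ] H).left,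
        ⟨((x : planeSemi ρ) : Au K ⋊[ph ρ] H).right, x.2⟩⟩, (x : planeSemi ρ).2⟩
      map_one' := rfl
      map_mul' := fun _ _ => rfl }
  refine hC.sub _ _ f ?_ (hC.plane_finite (ρ.comp F.subtype))
  intro x y hxy
  apply Subtype.ext
  apply Subtype.ext
  refine SemidirectProduct.ext ?_ ?_
  · exact congrArg (fun z : planeSemi (ρ.comp F.subtype) =>
      (z : Au K ⋊[ph (ρ.comp F.subtype)] F).left) hxy
  · exact congrArg (fun z : planeSemi (ρ.comp F.subtype) =>
      ((z : Au K ⋊[ph (ρ.comp F.subtype)] F).right : H)) hxy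

end Pool.Agent.U563.BC
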